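import Pool.Agent.H62.UC.Md
import Pool.Agent.H62.UC.TDefs

/-!
MP_75f39d_co, FC-families: the test families and the necessity of the boundary conditions.
-/

set_option autoImplicit false

namespace Pool.Agent.H66.FC

open Finset Pool.Agent.H51.UC Pool.Agent.H62.UC

variable {α : Type*} [DecidableEq α]

/-- The test family: all subsets of `S ∖ {i}`, and `Y ∪ {i}` for the `Y ⊆ S ∖ {i}` not in `E`. -/
def tst (S : Finset α) (i : α) (E : Finset (Finset α)) : Finset (Finset α) :=
  S.powerset.filter fun T => i ∈ T → T.erase i ∉ E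

theorem mem_tst {S : Finset α} {i : α} {E : Finset (Finset α)} {T : Finset α} :
    T ∈ tst S i E ↔ T ⊆ S ∧ (i ∈ T → T.erase i ∉ E) := by
  rw [tst, mem_filter, mem_powerset]

theorem tst_union {S : Finset α} {i : α} {E : Finset (Finset α)} (hd : Down E) :
    ∀ T ∈ tst S i E, ∀ T' ∈ tst S i E, T ∪ T' ∈ tst S i E := by
  intro T hT T' hT'
  rw [mem_tst] at hT hT' ⊢
  refine ⟨union_subset hT.1 hT'.1, fun hi hE => ?_⟩
  rcases mem_union.1 hi with h | h
  · exact hT.2 h (hd _ hE _ (erase_subset_erase i subset_union_left))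
  · exact hT'.2 h (hd _ hE _ (erase_subset_erase i subset_union_right))

theorem sub_tst {S : Finset α} {i : α} {E F : Finset (Finset α)} (hF : ∀ T ∈ F, T ⊆ S)
    (hE : E ⊆ Ds F S i) : F ⊆ tst S i E := by
  intro T hT
  rw [mem_tst]
  refine ⟨hF T hT, fun hi h => ?_⟩
  have h1 := mem_Ds.1 (hE h)
  exact h1.2 ⟨T, hT, hi, by rw [insert_erase hi]⟩

theorem Ns_tst_self {S : Finset α} {i : α} (hi : i ∈ S) {E F : Finset (Finset α)}
    (hE : E ⊆ Ds F S i) : Ns (tst S i E) i = E := by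
  ext T
  rw [mem_Ns, mem_tst, mem_tst]
  constructor
  · rintro ⟨⟨h1, _⟩, h3, h4⟩
    by_contra h
    exact h4 ⟨insert_subset hi h1, fun _ => by rwa [erase_insert h3]⟩
  · intro h
    have h1 := (mem_Ds.1 (hE h)).1
    have h2 : i ∉ T := fun h' => (mem_erase.1 (h1 h')).1 rfl
    refine ⟨⟨h1.trans (erase_subset i S), fun h' => absurd h' h2⟩, h2, fun h3 => ?_⟩
    exact h3.2 (mem_insert_self i T) (by rwa [erase_insert h2])

theorem Bd_tst_self {S : Finset α} {i : α} {E : Finset (Finset α)} :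
    Bd (tst S i E) i = ∅ := by
  rw [eq_empty_iff_forall_notMem]
  intro T hT
  rw [mem_Bd, mem_tst, mem_tst] at hT
  exact hT.2.2 ⟨(erase_subset i T).trans hT.1.1, fun h => absurd h (notMem_erase i T)⟩

theorem Ns_tst {S : Finset α} {i j : α} (hj : j ∈ S.erase i) {E : Finset (Finset α)}
    (hd : Down E) : Ns (tst S i E) j = ∅ := by
  rw [eq_empty_iff_forall_notMem]
  intro T hT
  rw [mem_Ns, mem_tst, mem_tst] at hT
  obtain ⟨⟨h1, h2⟩, h3, h4⟩ := hT
  rw [mem_erase] at hj
  refine h4 ⟨insert_subset hj.2 h1, fun hi => fun hE => ?_⟩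
  have hiT : i ∈ T := (mem_insert.1 hi).resolve_left hj.1.symm
  exact h2 hiT (hd _ hE _ (erase_subset_erase i (subset_insert j T)))

theorem Bd_tst {S : Finset α} {i j : α} (hi : i ∈ S) (hj : j ∈ S.erase i)
    {E F : Finset (Finset α)} (hE : E ⊆ Ds F S i) :
    (Bd (tst S i E) j).card = (E.filter fun Y => j ∉ Y ∧ insert j Y ∉ E).card := by
  rw [mem_erase] at hj
  refine card_bij' (fun T _ => (T.erase i).erase j) (fun Y _ => insert i (insert j Y)) ?_ ?_ ?_ ?_
  · intro T hT
    rw [mem_Bd, mem_tst, mem_tst] at hT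
    obtain ⟨⟨h1, h2⟩, h3, h4⟩ := hT
    have hiT : i ∈ T := by
      by_contra h
      exact h4 ⟨(erase_subset j T).trans h1, fun h' => absurd (mem_of_mem_erase h') h⟩
    have h5 : (T.erase i).erase j ∈ E := by
      by_contra h
      refine h4 ⟨(erase_subset j T).trans h1, fun _ => ?_⟩
      rwa [erase_right_comm]
    rw [mem_filter]
    refine ⟨h5, notMem_erase j _, ?_⟩
    rw [insert_erase (mem_erase.2 ⟨hj.1, h3⟩)]
    exact h2 hiT
  · intro Y hY
    rw [mem_filter] at hY
    obtain ⟨h1, h2, h3⟩ := hY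
    have h4 := (mem_Ds.1 (hE h1)).1
    have h5 : i ∉ Y := fun h' => (mem_erase.1 (h4 h')).1 rfl
    have h6 : i ∉ insert j Y := by
      rw [mem_insert, not_or]
      exact ⟨hj.1.symm, h5⟩
    rw [mem_Bd, mem_tst, mem_tst]
    refine ⟨⟨insert_subset hi (insert_subset hj.2 (h4.trans (erase_subset i S))), fun _ => ?_⟩,
      mem_insert_of_mem (mem_insert_self j Y), fun h => ?_⟩
    · rwa [erase_insert h6]
    · refine h.2 ?_ ?_
      · rw [mem_erase]
        exact ⟨hj.1.symm, mem_insert_self i _⟩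
      · rw [erase_right_comm, erase_insert h6, erase_insert h2]
        exact h1
  · intro T hT
    rw [mem_Bd, mem_tst, mem_tst] at hT
    obtain ⟨⟨h1, h2⟩, h3, h4⟩ := hT
    have hiT : i ∈ T := by
      by_contra h
      exact h4 ⟨(erase_subset j T).trans h1, fun h' => absurd (mem_of_mem_erase h') h⟩
    rw [insert_erase (mem_erase.2 ⟨hj.1, h3⟩), insert_erase hiT]
  · intro Y hY
    rw [mem_filter] at hY
    obtain ⟨h1, h2, h3⟩ := hY
    have h4 := (mem_Ds.1 (hE h1)).1
    have h5 : i ∉ Y := fun h' => (mem_erase.1 (h4 h')).1 rfl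
    have h6 : i ∉ insert j Y := by
      rw [mem_insert, not_or]
      exact ⟨hj.1.symm, h5⟩
    rw [erase_insert h6, erase_insert h2]

/-- The excess of the point `i` in the test family. -/
theorem exc_self {S : Finset α} {i : α} (hi : i ∈ S) {E F : Finset (Finset α)}
    (hE : E ⊆ Ds F S i) :
    2 * (((tst S i E).filter (fun T => i ∈ T)).card : ℝ) - ((tst S i E).card : ℝ) =
      -(E.card : ℝ) := by
  rw [freq_identity, Ns_tst_self hi hE, Bd_tst_self, card_empty, Nat.cast_zero, zero_sub]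

/-- The excess of the points `j ≠ i` in the test family. -/
theorem exc_other {S : Finset α} {i j : α} (hi : i ∈ S) (hj : j ∈ S.erase i)
    {E F : Finset (Finset α)} (hE : E ⊆ Ds F S i) (hd : Down E) :
    2 * (((tst S i E).filter (fun T => j ∈ T)).card : ℝ) - ((tst S i E).card : ℝ) =
      ((E.filter fun Y => j ∉ Y ∧ insert j Y ∉ E).card : ℝ) := by
  rw [freq_identity, Ns_tst hj hd, Bd_tst hi hj hE, card_empty, Nat.cast_zero, sub_zero]

/-- Necessity of the boundary conditions. -/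
theorem nec {F : Finset (Finset α)} {S : Finset α} (hF : ∀ T ∈ F, T ⊆ S) {lam : α → ℝ} {i : α}
    (hi : i ∈ S) {E : Finset (Finset α)} (hE : E ⊆ Ds F S i) (hd : Down E)
    (h : ∀ A : Finset (Finset α), (∀ T ∈ A, ∀ T' ∈ A, T ∪ T' ∈ A) → F ⊆ A → (∀ T ∈ A, T ⊆ S) →
      0 ≤ ∑ x ∈ S, lam x * (2 * ((A.filter (fun T => x ∈ T)).card : ℝ) - (A.card : ℝ))) :
    lam i * (E.card : ℝ) ≤
      ∑ j ∈ S.erase i, lam j * ((E.filter fun Y => j ∉ Y ∧ insert j Y ∉ E).card : ℝ) := by
  have h1 := h (tst S i E) (tst_union hd) (sub_tst hF hE) (fun T hT => (mem_tst.1 hT).1)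
  rw [← add_sum_erase S _ hi, exc_self hi hE,
    sum_congr rfl fun j hj => by rw [exc_other hi hj hE hd]] at h1
  linarith

end Pool.Agent.H66.FC
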