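import Pool.Agent.H51.UC.Ia

/-!
MP_75f39d_co, FC-families: disjoint petals.

`cube`: a down-closed family `W` of subsets of `P` with `P ∉ W` satisfies
`|P| |W| ≤ (2 ^ |P| - 1) ∑_{j ∈ P} #{Y ∈ W : j ∉ Y, Y ∪ {j} ∉ W}`.
-/

set_option autoImplicit false

namespace Pool.Agent.H66.FC

open Finset Pool.Agent.H51.UC

variable {α : Type*} [DecidableEq α]

/-- The number of exits in direction `j`. -/
def ex (E : Finset (Finset α)) (j : α) : ℕ := (E.filter fun Y => j ∉ Y ∧ insert j Y ∉ E).card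

private theorem arith {k m w0 w1 e0 e1 : ℤ} (hm : 1 ≤ m) (hkm : k + 1 ≤ m)
    (hw1m : w1 ≤ m - 1) (hw1 : 0 ≤ w1) (hw01 : w1 ≤ w0)
    (he1 : k * w1 ≤ (m - 1) * e1)
    (he0 : w0 = m ∧ 0 ≤ e0 ∨ w0 ≤ m - 1 ∧ k * w0 ≤ (m - 1) * e0)
    (he1' : 0 ≤ e1) (he0' : 0 ≤ e0) (h1 : m = 1 ∧ k = 0 ∨ 2 ≤ m ∧ 1 ≤ k) :
    (k + 1) * (w0 + w1) ≤ (2 * m - 1) * (e0 + e1 + (w0 - w1)) := by
  rcases h1 with ⟨h1, h2⟩ | ⟨h1, h2⟩
  · subst h1 h2
    have h3 : w1 = 0 := by omega
    subst h3
    linarith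
  · -- multiply by `m - 1`
    have key : (m - 1) * ((k + 1) * (w0 + w1)) ≤
        (m - 1) * ((2 * m - 1) * (e0 + e1 + (w0 - w1))) := by
      have h5 : (2 * m - 1) * (k * w1) ≤ (2 * m - 1) * ((m - 1) * e1) :=
        mul_le_mul_of_nonneg_left he1 (by omega)
      rcases he0 with ⟨h3, h4⟩ | ⟨h3, h4⟩
      · have h6 : 0 ≤ (2 * m - 1) * ((m - 1) * e0) :=
          mul_nonneg (by omega) (mul_nonneg (by omega) h4)
        have h7 : 0 ≤ (m - 1 - w1) * ((2 * m - 1) * (m - 1 - k) + (m - 1) * (k + 1)) :=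
          mul_nonneg (by omega) (add_nonneg (mul_nonneg (by omega) (by omega))
            (mul_nonneg (by omega) (by omega)))
        subst h3
        linarith
      · have h6 : (2 * m - 1) * (k * w0) ≤ (2 * m - 1) * ((m - 1) * e0) :=
          mul_le_mul_of_nonneg_left h4 (by omega)
        have h7 : 0 ≤ (w0 + w1) * (m * (k - 1) + 1) :=
          mul_nonneg (by omega) (add_nonneg (mul_nonneg (by omega) (by omega)) zero_le_one)
        have h8 : 0 ≤ (2 * m - 1) * ((m - 1) * (w0 - w1)) :=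
          mul_nonneg (by omega) (mul_nonneg (by omega) (by omega))
        linarith
    exact le_of_mul_le_mul_left key (by omega)

/-- The exits of a family on `insert a P` in a direction `j ∈ P`, `j ≠ a`. -/
theorem ex_split {a j : α} (hja : j ≠ a) (E : Finset (Finset α)) :
    ex E j = ex (E.filter fun Y => a ∉ Y) j +
      ex ((E.filter fun Y => a ∈ Y).image fun Y => Y.erase a) j := by
  unfold ex
  rw [← card_filter_add_card_filter_not (s := E.filter fun Y => j ∉ Y ∧ insert j Y ∉ E)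
    (fun Y => a ∉ Y)]
  congr 1
  · congr 1
    ext Y
    simp only [mem_filter, mem_insert, not_or, not_and_or, not_not]
    constructor
    · rintro ⟨⟨h1, h2, h3⟩, h4⟩
      exact ⟨⟨h1, h4⟩, h2, Or.inl h3⟩
    · rintro ⟨⟨h1, h4⟩, h2, h3 | h3 | h3⟩
      · exact ⟨⟨h1, h2, h3⟩, h4⟩
      · exact absurd h3.symm hja
      · exact absurd h3 h4
  · refine card_bij' (fun Y _ => Y.erase a) (fun Y _ => insert a Y) ?_ ?_ ?_ ?_
    · intro Y hY
      rw [mem_filter, mem_filter, not_not] at hY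
      obtain ⟨⟨h1, h2, h3⟩, h4⟩ := hY
      rw [mem_filter, mem_image]
      refine ⟨⟨Y, mem_filter.2 ⟨h1, h4⟩, rfl⟩, fun h => h2 (mem_of_mem_erase h), ?_⟩
      rw [mem_image]
      rintro ⟨Z, hZ, hZY⟩
      rw [mem_filter] at hZ
      apply h3
      have h5 : insert a (Z.erase a) = insert a (insert j (Y.erase a)) := by rw [hZY]
      rw [insert_erase hZ.2, Finset.insert_comm, insert_erase h4] at h5
      rw [← h5]
      exact hZ.1
    · intro Y hY
      rw [mem_filter, mem_image, mem_image] at hY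
      obtain ⟨⟨Z, hZ, rfl⟩, h2, h3⟩ := hY
      rw [mem_filter] at hZ
      rw [insert_erase hZ.2, mem_filter, mem_filter, not_not]
      have hjZ : j ∉ Z := fun h => h2 (mem_erase.2 ⟨hja, h⟩)
      refine ⟨⟨hZ.1, hjZ, fun h => h3 ⟨insert j Z, mem_filter.2 ⟨h, mem_insert_of_mem hZ.2⟩, ?_⟩⟩,
        hZ.2⟩
      rw [erase_insert_of_ne hja]
    · intro Y hY
      rw [mem_filter, mem_filter, not_not] at hY
      exact insert_erase hY.2
    · intro Y hY
      rw [mem_filter, mem_image] at hY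
      obtain ⟨⟨Z, hZ, rfl⟩, h2, h3⟩ := hY
      exact erase_insert (notMem_erase a Z)

theorem cube (P : Finset α) : ∀ W : Finset (Finset α), W ⊆ P.powerset → Down W → P ∉ W →
    (P.card : ℤ) * (W.card : ℤ) ≤ (2 ^ P.card - 1) * ((∑ j ∈ P, ex W j : ℕ) : ℤ) := by
  induction P using Finset.induction_on with
  | empty =>
    intro W _ _ _
    simp
  | insert a P ha ih =>
    intro W hW hd hP
    obtain ⟨W0, hW0⟩ : ∃ W0, W0 = W.filter fun Y => a ∉ Y := ⟨_, rfl⟩
    obtain ⟨W1, hW1⟩ : ∃ W1, W1 = (W.filter fun Y => a ∈ Y).image fun Y => Y.erase a := ⟨_, rfl⟩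
    have m0 : ∀ Y, Y ∈ W0 ↔ Y ∈ W ∧ a ∉ Y := fun Y => by rw [hW0, mem_filter]
    have m1 : ∀ Y, Y ∈ W1 ↔ a ∉ Y ∧ insert a Y ∈ W := by
      intro Y
      rw [hW1, mem_image]
      constructor
      · rintro ⟨Z, hZ, rfl⟩
        rw [mem_filter] at hZ
        exact ⟨notMem_erase a Z, by rw [insert_erase hZ.2]; exact hZ.1⟩
      · rintro ⟨h1, h2⟩
        exact ⟨insert a Y, mem_filter.2 ⟨h2, mem_insert_self a Y⟩, erase_insert h1⟩
    have h10 : W1 ⊆ W0 := by
      intro Y hY
      rw [m1] at hY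
      rw [m0]
      exact ⟨hd _ hY.2 _ (subset_insert a Y), hY.1⟩
    have s0 : W0 ⊆ P.powerset := by
      intro Y hY
      rw [m0] at hY
      rw [mem_powerset]
      intro x hx
      rcases mem_insert.1 (mem_powerset.1 (hW hY.1) hx) with h | h
      · rw [h] at hx
        exact absurd hx hY.2
      · exact h
    have d0 : Down W0 := by
      intro Y hY Z hZ
      rw [m0] at hY ⊢
      exact ⟨hd _ hY.1 _ hZ, fun h => hY.2 (hZ h)⟩
    have d1 : Down W1 := by
      intro Y hY Z hZ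
      rw [m1] at hY ⊢
      exact ⟨fun h => hY.1 (hZ h), hd _ hY.2 _ (insert_subset_insert a hZ)⟩
    have p1 : P ∉ W1 := by
      intro h
      rw [m1] at h
      exact hP h.2
    have i1 := ih W1 (h10.trans s0) d1 p1
    have hc0 : W0.card ≤ 2 ^ P.card := by
      rw [← card_powerset]
      exact card_le_card s0
    have hc1 : W1.card + 1 ≤ 2 ^ P.card := by
      rw [← card_powerset]
      have h1 : insert P W1 ⊆ P.powerset :=
        insert_subset (mem_powerset.2 (Subset.refl P)) (h10.trans s0)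
      have h2 := card_le_card h1
      rwa [card_insert_of_notMem p1] at h2
    have hcW : W.card = W0.card + W1.card := by
      rw [← card_filter_add_card_filter_not (s := W) (fun Y => a ∉ Y), ← hW0, hW1,
        card_image_of_injOn]
      · congr 1
        congr 1
        ext Y
        rw [mem_filter, mem_filter, not_not]
      · intro Y hY Z hZ h
        have hY' := (mem_filter.1 (mem_coe.1 hY)).2
        have hZ' := (mem_filter.1 (mem_coe.1 hZ)).2
        have h' : Y.erase a = Z.erase a := h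
        rw [← insert_erase hY', h', insert_erase hZ']
    have hea : ex W a = W0.card - W1.card := by
      unfold ex
      rw [← card_sdiff_of_subset h10]
      congr 1
      ext Y
      rw [mem_filter, mem_sdiff, m0, m1]
      tauto
    have hs : ∑ j ∈ insert a P, ex W j =
        (∑ j ∈ P, ex W0 j) + (∑ j ∈ P, ex W1 j) + (W0.card - W1.card) := by
      rw [sum_insert ha, hea, add_comm, ← sum_add_distrib]
      congr 1
      refine sum_congr rfl fun j hj => ?_
      rw [hW0, hW1]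
      exact ex_split (fun h => ha (by rw [← h]; exact hj)) W
    have hle := card_le_card h10
    rw [hs, card_insert_of_notMem ha, hcW]
    have hcast : (((∑ j ∈ P, ex W0 j) + (∑ j ∈ P, ex W1 j) + (W0.card - W1.card) : ℕ) : ℤ) =
        ((∑ j ∈ P, ex W0 j : ℕ) : ℤ) + ((∑ j ∈ P, ex W1 j : ℕ) : ℤ) +
          ((W0.card : ℤ) - (W1.card : ℤ)) := by
      push_cast [Nat.cast_sub hle]
      ring
    rw [hcast]
    push_cast
    have h2m : (2 : ℤ) ^ (P.card + 1) = 2 * 2 ^ P.card := by ring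
    rw [h2m]
    have hlt : P.card < 2 ^ P.card := Nat.lt_two_pow_self
    have hk : ((P.card : ℤ)) + 1 ≤ 2 ^ P.card := by exact_mod_cast hlt
    have hc0' : (W0.card : ℤ) ≤ 2 ^ P.card := by exact_mod_cast hc0
    have hc1' : (W1.card : ℤ) + 1 ≤ 2 ^ P.card := by exact_mod_cast hc1
    have hle' : (W1.card : ℤ) ≤ (W0.card : ℤ) := by exact_mod_cast hle
    refine arith (by linarith [Int.natCast_nonneg P.card]) hk (by linarith)
      (Int.natCast_nonneg _) hle' ?_ ?_ ?_ ?_ ?_
    · push_cast at i1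
      exact i1
    · by_cases hP0 : P ∈ W0
      · left
        refine ⟨?_, ?_⟩
        · have h1 : W0 = P.powerset :=
            Subset.antisymm s0 fun Y hY => d0 _ hP0 _ (mem_powerset.1 hY)
          rw [h1, card_powerset]
          push_cast
          rfl
        · exact sum_nonneg fun _ _ => Int.natCast_nonneg _
      · right
        refine ⟨?_, ?_⟩
        · have h1 : insert P W0 ⊆ P.powerset :=
            insert_subset (mem_powerset.2 (Subset.refl P)) s0
          have h2 := card_le_card h1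
          rw [card_insert_of_notMem hP0, card_powerset] at h2
          have h3 : (W0.card : ℤ) + 1 ≤ 2 ^ P.card := by exact_mod_cast h2
          linarith
        · have i0 := ih W0 s0 d0 hP0
          push_cast at i0
          exact i0
    · exact sum_nonneg fun _ _ => Int.natCast_nonneg _
    · exact sum_nonneg fun _ _ => Int.natCast_nonneg _
    · rcases Nat.eq_zero_or_pos P.card with h | h
      · left
        rw [h]
        norm_num
      · right
        refine ⟨?_, by exact_mod_cast h⟩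
        have h1 : 2 ^ 1 ≤ 2 ^ P.card := Nat.pow_le_pow_right (by norm_num) h
        exact_mod_cast h1

/-- The subsets `W` of `P` such that `W ∪ Z` is in `E`. -/
def sec (E : Finset (Finset α)) (P Z : Finset α) : Finset (Finset α) :=
  P.powerset.filter fun W => W ∪ Z ∈ E

theorem mem_sec {E : Finset (Finset α)} {P Z W : Finset α} :
    W ∈ sec E P Z ↔ W ⊆ P ∧ W ∪ Z ∈ E := by
  rw [sec, mem_filter, mem_powerset]

private theorem parts {P Z W : Finset α} (hZ : Disjoint Z P) (hW : W ⊆ P) :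
    (W ∪ Z) \ P = Z ∧ (W ∪ Z) ∩ P = W := by
  constructor
  · ext x
    simp only [mem_union, mem_sdiff]
    constructor
    · rintro ⟨h1 | h1, h2⟩
      · exact absurd (hW h1) h2
      · exact h1
    · intro h
      exact ⟨Or.inr h, fun h' => (disjoint_left.1 hZ h h').elim⟩
  · ext x
    simp only [mem_union, mem_inter]
    constructor
    · rintro ⟨h1 | h1, h2⟩
      · exact h1
      · exact (disjoint_left.1 hZ h1 h2).elim
    · intro h
      exact ⟨Or.inl h, hW h⟩

private theorem join (T P : Finset α) : T ∩ P ∪ T \ P = T := by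
  ext x
  simp only [mem_union, mem_inter, mem_sdiff]
  tauto

private theorem dj {V P Z : Finset α} (hZ : Z ∈ (V \ P).powerset) : Disjoint Z P :=
  disjoint_of_subset_left (mem_powerset.1 hZ) sdiff_disjoint

theorem card_sec {V : Finset α} {E : Finset (Finset α)} (hE : E ⊆ V.powerset) (P : Finset α) :
    ∑ Z ∈ (V \ P).powerset, (sec E P Z).card = E.card := by
  symm
  rw [card_eq_sum_card_fiberwise (f := fun T : Finset α => T \ P) (t := (V \ P).powerset)
    (fun T hT => mem_powerset.2 (sdiff_subset_sdiff (mem_powerset.1 (hE hT)) (Subset.refl P)))]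
  refine sum_congr rfl fun Z hZ => ?_
  have hd := dj hZ
  symm
  refine card_bij' (fun w _ => w ∪ Z) (fun T _ => T ∩ P) ?_ ?_ ?_ ?_
  · intro w hw
    rw [mem_sec] at hw
    rw [mem_filter]
    exact ⟨hw.2, (parts hd hw.1).1⟩
  · intro T hT
    rw [mem_filter] at hT
    rw [mem_sec]
    refine ⟨inter_subset_right, ?_⟩
    have hj := join T P
    rw [hT.2] at hj
    rw [hj]
    exact hT.1
  · intro w hw
    rw [mem_sec] at hw
    exact (parts hd hw.1).2
  · intro T hT
    rw [mem_filter] at hT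
    have hj := join T P
    rw [hT.2] at hj
    exact hj

theorem ex_sec {V : Finset α} {E : Finset (Finset α)} (hE : E ⊆ V.powerset) {P : Finset α}
    {j : α} (hj : j ∈ P) :
    ∑ Z ∈ (V \ P).powerset, ex (sec E P Z) j = ex E j := by
  unfold ex
  symm
  rw [card_eq_sum_card_fiberwise (f := fun T : Finset α => T \ P) (t := (V \ P).powerset)
    (fun T hT => mem_powerset.2
      (sdiff_subset_sdiff (mem_powerset.1 (hE (mem_filter.1 (mem_coe.1 hT)).1)) (Subset.refl P)))]
  refine sum_congr rfl fun Z hZ => ?_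
  have hd := dj hZ
  have hjZ : j ∉ Z := fun h => disjoint_left.1 hd h hj
  symm
  refine card_bij' (fun w _ => w ∪ Z) (fun T _ => T ∩ P) ?_ ?_ ?_ ?_
  · intro w hw
    rw [mem_filter, mem_sec, mem_sec] at hw
    obtain ⟨⟨h1, h2⟩, h3, h4⟩ := hw
    rw [mem_filter, mem_filter]
    refine ⟨⟨h2, ?_, ?_⟩, (parts hd h1).1⟩
    · rw [mem_union]
      exact not_or.2 ⟨h3, hjZ⟩
    · intro h
      exact h4 ⟨insert_subset hj h1, by rw [insert_union]; exact h⟩
  · intro T hT
    rw [mem_filter, mem_filter] at hT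
    obtain ⟨⟨h1, h2, h3⟩, h4⟩ := hT
    have hj' := join T P
    rw [h4] at hj'
    rw [mem_filter, mem_sec, mem_sec]
    refine ⟨⟨inter_subset_right, by rw [hj']; exact h1⟩, ?_, ?_⟩
    · intro h
      exact h2 (mem_inter.1 h).1
    · rintro ⟨-, h5⟩
      rw [insert_union, hj'] at h5
      exact h3 h5
  · intro w hw
    rw [mem_filter, mem_sec] at hw
    exact (parts hd hw.1.1).2
  · intro T hT
    rw [mem_filter] at hT
    have hj' := join T P
    rw [hT.2] at hj'
    exact hj'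

/-- One petal. -/
theorem petal_one {V : Finset α} {E : Finset (Finset α)} (hE : E ⊆ V.powerset) (hd : Down E)
    {P : Finset α} (hP : ∀ Y ∈ E, ¬ P ⊆ Y) :
    (P.card : ℤ) * (E.card : ℤ) ≤ (2 ^ P.card - 1) * ((∑ j ∈ P, ex E j : ℕ) : ℤ) := by
  have h1 : ∀ Z ∈ (V \ P).powerset, (P.card : ℤ) * ((sec E P Z).card : ℤ) ≤
      (2 ^ P.card - 1) * ((∑ j ∈ P, ex (sec E P Z) j : ℕ) : ℤ) := by
    intro Z hZ
    refine cube P _ (filter_subset _ _) ?_ ?_
    · intro Y hY W hW
      rw [mem_sec] at hY ⊢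
      exact ⟨hW.trans hY.1, hd _ hY.2 _ (union_subset_union hW (Subset.refl Z))⟩
    · intro h
      rw [mem_sec] at h
      exact hP _ h.2 subset_union_left
  have h2 := sum_le_sum h1
  rw [← mul_sum, ← mul_sum, ← Nat.cast_sum, ← Nat.cast_sum, card_sec hE, sum_comm,
    sum_congr rfl fun j hj => ex_sec hE hj] at h2
  exact h2

/-- Petals: the members through a point meet pairwise only in this point. -/
theorem petal {V : Finset α} {E : Finset (Finset α)} (hE : E ⊆ V.powerset) (hd : Down E)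
    {Q : Finset (Finset α)} (hQ : ∀ P ∈ Q, P ⊆ V)
    (hdj : ∀ P ∈ Q, ∀ P' ∈ Q, P ≠ P' → Disjoint P P')
    (hP : ∀ P ∈ Q, ∀ Y ∈ E, ¬ P ⊆ Y) {lam : α → ℝ} (hlam : ∀ j ∈ V, 0 ≤ lam j)
    {w : Finset α → ℝ} (hw : ∀ P ∈ Q, ∀ j ∈ P, w P ≤ lam j) (hw0 : ∀ P ∈ Q, 0 ≤ w P) :
    (∑ P ∈ Q, w P * ((P.card : ℝ) / (2 ^ P.card - 1))) * (E.card : ℝ) ≤
      ∑ j ∈ V, lam j * (ex E j : ℝ) := by
  have h1 : ∀ P ∈ Q, w P * ((P.card : ℝ) / (2 ^ P.card - 1)) * (E.card : ℝ) ≤
      ∑ j ∈ P, lam j * (ex E j : ℝ) := by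
    intro P hPQ
    have h2 := petal_one hE hd (hP P hPQ)
    have h3 : ∑ j ∈ P, w P * (ex E j : ℝ) ≤ ∑ j ∈ P, lam j * (ex E j : ℝ) :=
      sum_le_sum fun j hj => mul_le_mul_of_nonneg_right (hw P hPQ j hj) (Nat.cast_nonneg _)
    refine le_trans ?_ h3
    rw [← mul_sum, mul_assoc]
    refine mul_le_mul_of_nonneg_left ?_ (hw0 P hPQ)
    rcases Nat.eq_zero_or_pos P.card with h | h
    · rw [h]
      simp only [Nat.cast_zero, zero_div, zero_mul]
      exact sum_nonneg fun _ _ => Nat.cast_nonneg _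
    · have h4 : (0 : ℝ) < 2 ^ P.card - 1 := by
        have h5 : (1 : ℝ) < 2 ^ P.card := one_lt_pow₀ (by norm_num) h.ne'
        linarith
      rw [div_mul_eq_mul_div, div_le_iff₀ h4, mul_comm (∑ j ∈ P, (ex E j : ℝ))]
      have h5 : ((((P.card : ℤ) * (E.card : ℤ) : ℤ)) : ℝ) ≤
          (((2 ^ P.card - 1) * ((∑ j ∈ P, ex E j : ℕ) : ℤ) : ℤ) : ℝ) := by exact_mod_cast h2
      push_cast at h5
      exact h5
  rw [sum_mul]
  refine (sum_le_sum h1).trans ?_
  have h2 : ∑ P ∈ Q, ∑ j ∈ P, lam j * (ex E j : ℝ) =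
      ∑ j ∈ Q.biUnion id, lam j * (ex E j : ℝ) := by
    rw [sum_biUnion]
    · rfl
    · intro P hP' P' hP'' hne
      exact hdj P hP' P' hP'' hne
  rw [h2]
  refine sum_le_sum_of_subset_of_nonneg ?_ fun j hj _ =>
    mul_nonneg (hlam j hj) (Nat.cast_nonneg _)
  intro j hj
  rw [mem_biUnion] at hj
  obtain ⟨P, hPQ, hjP⟩ := hj
  exact hQ P hPQ hjP

end Pool.Agent.H66.FC
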