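import Mathlib

/-!
MP_75f39d_co, FC-families: two theorems of the alternative.
-/

set_option autoImplicit false

namespace Pool.Agent.H66.FC

open Finset

/-- Farkas' lemma for linear functionals. -/
theorem farkas {W ι : Type*} [AddCommGroup W] [Module ℝ W] [DecidableEq ι] (F : Finset ι) :
    ∀ (b : ι → W →ₗ[ℝ] ℝ) (v : W →ₗ[ℝ] ℝ), (∀ w, (∀ k ∈ F, 0 ≤ b k w) → 0 ≤ v w) →
      ∃ c : ι → ℝ, (∀ k ∈ F, 0 ≤ c k) ∧ v = ∑ k ∈ F, c k • b k := by
  induction F using Finset.induction_on with
  | empty =>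
    intro b v h
    refine ⟨fun _ => 0, by simp, ?_⟩
    ext w
    have h1 := h w (by simp)
    have h2 := h (-w) (by simp)
    rw [map_neg] at h2
    simp only [Finset.sum_empty, LinearMap.zero_apply]
    linarith
  | insert p F hp ih =>
    intro b v h
    by_cases h0 : ∀ w, (∀ k ∈ F, 0 ≤ b k w) → 0 ≤ v w
    · obtain ⟨c, hc, hv⟩ := ih b v h0
      refine ⟨fun k => if k = p then 0 else c k, fun k hk => ?_, ?_⟩
      · simp only
        split_ifs with hkp
        · exact le_rfl
        · exact hc k ((Finset.mem_insert.mp hk).resolve_left hkp)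
      · rw [Finset.sum_insert hp]
        simp only [if_true, zero_smul, zero_add]
        rw [hv]
        refine Finset.sum_congr rfl fun k hk => ?_
        rw [if_neg (by rintro rfl; exact hp hk)]
    · push Not at h0
      obtain ⟨w1, hw1, hv1⟩ := h0
      have hbp : b p w1 < 0 := by
        by_contra hcon
        push Not at hcon
        have := h w1 (fun k hk => by
          rcases Finset.mem_insert.mp hk with rfl | hk
          · exact hcon
          · exact hw1 k hk)
        linarith
      -- normalise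
      set w0 : W := (-(b p w1))⁻¹ • w1 with hw0
      have hpos : 0 < (-(b p w1))⁻¹ := inv_pos.mpr (by linarith)
      have hb0 : b p w0 = -1 := by
        rw [hw0, map_smul, smul_eq_mul]
        have : b p w1 ≠ 0 := by linarith
        field_simp
      have hbk0 : ∀ k ∈ F, 0 ≤ b k w0 := by
        intro k hk
        rw [hw0, map_smul, smul_eq_mul]
        exact mul_nonneg hpos.le (hw1 k hk)
      have hv0 : v w0 < 0 := by
        rw [hw0, map_smul, smul_eq_mul]
        exact mul_neg_of_pos_of_neg hpos hv1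
      obtain ⟨c, hc, hv⟩ := ih (fun k => b k + (b k w0) • b p) (v + (v w0) • b p) (by
        intro w hw
        have h1 := h (w + (b p w) • w0) (fun k hk => by
          rcases Finset.mem_insert.mp hk with rfl | hk
          · rw [map_add, map_smul, smul_eq_mul, hb0]; linarith
          · have := hw k hk
            simp only [LinearMap.add_apply, LinearMap.smul_apply, smul_eq_mul] at this
            rw [map_add, map_smul, smul_eq_mul]
            linarith)
        rw [map_add, map_smul, smul_eq_mul] at h1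
        simp only [LinearMap.add_apply, LinearMap.smul_apply, smul_eq_mul]
        linarith)
      refine ⟨fun k => if k = p then ∑ k ∈ F, c k * b k w0 - v w0 else c k, fun k hk => ?_, ?_⟩
      · simp only
        split_ifs with hkp
        · have : 0 ≤ ∑ k ∈ F, c k * b k w0 :=
            Finset.sum_nonneg fun k hk => mul_nonneg (hc k hk) (hbk0 k hk)
          linarith
        · exact hc k ((Finset.mem_insert.mp hk).resolve_left hkp)
      · rw [Finset.sum_insert hp]
        simp only [if_true]
        have h2 : ∑ k ∈ F, (if k = p then ∑ k ∈ F, c k * b k w0 - v w0 else c k) • b k =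
            ∑ k ∈ F, c k • b k := by
          refine Finset.sum_congr rfl fun k hk => ?_
          rw [if_neg (by rintro rfl; exact hp hk)]
        rw [h2]
        ext w
        have h3 := congrArg (fun f : W →ₗ[ℝ] ℝ => f w) hv
        simp only [LinearMap.add_apply, LinearMap.smul_apply, smul_eq_mul,
          LinearMap.coe_sum, Finset.sum_apply] at h3 ⊢
        have h4 : ∑ k ∈ F, c k * (b k w + b k w0 * b p w) =
            ∑ k ∈ F, c k * b k w + (∑ k ∈ F, c k * b k w0) * b p w := by
          rw [Finset.sum_mul, ← Finset.sum_add_distrib]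
          exact Finset.sum_congr rfl fun k _ => by ring
        rw [h4] at h3
        linarith

/-- The functional `lam ↦ ∑ x ∈ S, lam x * v x`. -/
def dot {α : Type*} (S : Finset α) (v : α → ℝ) : (α → ℝ) →ₗ[ℝ] ℝ where
  toFun lam := ∑ x ∈ S, lam x * v x
  map_add' a b := by
    rw [← sum_add_distrib]
    exact sum_congr rfl fun x _ => by rw [Pi.add_apply, add_mul]
  map_smul' t a := by
    rw [RingHom.id_apply, smul_eq_mul, mul_sum]
    exact sum_congr rfl fun x _ => by rw [Pi.smul_apply, smul_eq_mul, mul_assoc]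

theorem dot_apply {α : Type*} (S : Finset α) (v lam : α → ℝ) :
    dot S v lam = ∑ x ∈ S, lam x * v x := rfl

theorem dot_single {α : Type*} [DecidableEq α] {S : Finset α} (v : α → ℝ) {x : α} (hx : x ∈ S) :
    dot S v (Pi.single x 1) = v x := by
  rw [dot_apply, sum_eq_single x]
  · rw [Pi.single_eq_same, one_mul]
  · intro y _ hy
    rw [Pi.single_eq_of_ne hy, zero_mul]
  · intro h
    exact absurd hx h

/-- Ville's theorem: if `lam = 0` is the only nonnegative solution of `⟨lam, v s⟩ ≥ 0`, some nonnegative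
combination of the `v s` is negative in all coordinates. -/
theorem ville {α ι : Type*} [DecidableEq α] [DecidableEq ι] (S : Finset α) (I : Finset ι)
    (v : ι → α → ℝ)
    (h : ∀ lam : α → ℝ, (∀ x ∈ S, 0 ≤ lam x) → (∀ s ∈ I, 0 ≤ ∑ x ∈ S, lam x * v s x) →
      ∀ x ∈ S, lam x = 0) :
    ∃ c : ι → ℝ, (∀ s ∈ I, 0 ≤ c s) ∧ ∀ x ∈ S, ∑ s ∈ I, c s * v s x < 0 := by
  obtain ⟨c, hc, hv⟩ := farkas (W := α → ℝ) (I.disjSum S)
    (fun k => match k with
      | Sum.inl s => dot S (v s)
      | Sum.inr x => LinearMap.proj x)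
    (dot S fun _ => -1) (by
      intro w hw
      have h1 := h w (fun x hx => hw (Sum.inr x) (inr_mem_disjSum.2 hx))
        (fun s hs => hw (Sum.inl s) (inl_mem_disjSum.2 hs))
      rw [dot_apply, sum_congr rfl fun x hx => by rw [h1 x hx, zero_mul], sum_const_zero])
  refine ⟨fun s => c (Sum.inl s), fun s hs => hc _ (inl_mem_disjSum.2 hs), fun x hx => ?_⟩
  have h1 := congrArg (fun f : (α → ℝ) →ₗ[ℝ] ℝ => f (Pi.single x 1)) hv
  simp only [sum_disjSum, LinearMap.add_apply, LinearMap.coe_sum, Finset.sum_apply,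
    LinearMap.smul_apply, smul_eq_mul, dot_single _ hx, LinearMap.proj_apply] at h1
  rw [sum_eq_single (a := x) (s := S)] at h1
  · rw [Pi.single_eq_same, mul_one] at h1
    have h2 := hc _ (inr_mem_disjSum.2 hx)
    linarith
  · intro y _ hy
    rw [Pi.single_eq_of_ne hy, mul_zero]
  · intro h'
    exact absurd hx h'

/-- Gordan's theorem: if no positive `lam` has all `⟨lam, v s⟩ > 0`, some nonzero nonnegative combination
of the `v s` is nonpositive in all coordinates. -/
theorem gordan {α ι : Type*} [DecidableEq α] [DecidableEq ι] (S : Finset α) (I : Finset ι)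
    (v : ι → α → ℝ)
    (h : ¬ ∃ lam : α → ℝ, (∀ x ∈ S, 0 < lam x) ∧ ∀ s ∈ I, 0 < ∑ x ∈ S, lam x * v s x) :
    ∃ c : ι → ℝ, (∀ s ∈ I, 0 ≤ c s) ∧ (∃ s ∈ I, 0 < c s) ∧
      ∀ x ∈ S, ∑ s ∈ I, c s * v s x ≤ 0 := by
  obtain ⟨c, hc, hv⟩ := farkas (W := (α → ℝ) × ℝ) (I.disjSum S)
    (fun k => match k with
      | Sum.inl s => (dot S (v s)).comp (LinearMap.fst ℝ (α → ℝ) ℝ) - LinearMap.snd ℝ (α → ℝ) ℝ
      | Sum.inr x => (LinearMap.proj x : (α → ℝ) →ₗ[ℝ] ℝ).comp (LinearMap.fst ℝ (α → ℝ) ℝ) -
          LinearMap.snd ℝ (α → ℝ) ℝ)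
    (-LinearMap.snd ℝ (α → ℝ) ℝ) (by
      rintro ⟨w, t⟩ hw
      by_contra hcon
      have ht : 0 < t := by
        simp only [LinearMap.neg_apply, LinearMap.snd_apply] at hcon
        linarith
      refine h ⟨w, fun x hx => ?_, fun s hs => ?_⟩
      · have h1 := hw (Sum.inr x) (inr_mem_disjSum.2 hx)
        simp only [LinearMap.sub_apply, LinearMap.comp_apply, LinearMap.fst_apply,
          LinearMap.snd_apply, LinearMap.proj_apply] at h1
        linarith
      · have h1 := hw (Sum.inl s) (inl_mem_disjSum.2 hs)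
        simp only [LinearMap.sub_apply, LinearMap.comp_apply, LinearMap.fst_apply,
          LinearMap.snd_apply, dot_apply] at h1
        linarith)
  have e1 : ∀ x ∈ S, ∑ s ∈ I, c (Sum.inl s) * v s x + c (Sum.inr x) = 0 := by
    intro x hx
    have h1 := congrArg (fun f : ((α → ℝ) × ℝ) →ₗ[ℝ] ℝ => f (Pi.single x 1, 0)) hv
    simp only [sum_disjSum, LinearMap.add_apply, LinearMap.coe_sum, Finset.sum_apply,
      LinearMap.smul_apply, smul_eq_mul, LinearMap.sub_apply, LinearMap.comp_apply,
      LinearMap.fst_apply, LinearMap.snd_apply, LinearMap.neg_apply, dot_single _ hx,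
      LinearMap.proj_apply, sub_zero, neg_zero] at h1
    rw [sum_eq_single (a := x) (s := S)] at h1
    · rw [Pi.single_eq_same, mul_one] at h1
      exact h1.symm
    · intro y _ hy
      rw [Pi.single_eq_of_ne hy, mul_zero]
    · intro h'
      exact absurd hx h'
  have e2 : ∑ s ∈ I, c (Sum.inl s) + ∑ x ∈ S, c (Sum.inr x) = 1 := by
    have h1 := congrArg (fun f : ((α → ℝ) × ℝ) →ₗ[ℝ] ℝ => f (0, 1)) hv
    simp only [sum_disjSum, LinearMap.add_apply, LinearMap.coe_sum, Finset.sum_apply,
      LinearMap.smul_apply, smul_eq_mul, LinearMap.sub_apply, LinearMap.comp_apply,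
      LinearMap.fst_apply, LinearMap.snd_apply, LinearMap.neg_apply, map_zero, zero_sub,
      mul_neg, mul_one, sum_neg_distrib] at h1
    linarith
  refine ⟨fun s => c (Sum.inl s), fun s hs => hc _ (inl_mem_disjSum.2 hs), ?_, fun x hx => ?_⟩
  · by_contra hcon
    push Not at hcon
    have h0 : ∀ s ∈ I, c (Sum.inl s) = 0 := fun s hs =>
      le_antisymm (hcon s hs) (hc _ (inl_mem_disjSum.2 hs))
    have h1 : ∀ x ∈ S, c (Sum.inr x) = 0 := by
      intro x hx
      have h2 := e1 x hx
      rw [sum_congr rfl fun s hs => by rw [h0 s hs, zero_mul], sum_const_zero, zero_add] at h2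
      exact h2
    rw [sum_congr rfl h0, sum_congr rfl h1, sum_const_zero, sum_const_zero] at e2
    norm_num at e2
  · have h1 := e1 x hx
    have h2 := hc _ (inr_mem_disjSum.2 hx)
    linarith

/-- Rounding down. -/
theorem floor_sum {ι : Type*} (I : Finset ι) {c v : ι → ℝ} (hc : ∀ s ∈ I, 0 ≤ c s) (N : ℕ) :
    ∑ s ∈ I, (⌊(N : ℝ) * c s⌋₊ : ℝ) * v s ≤ N * ∑ s ∈ I, c s * v s + ∑ s ∈ I, |v s| := by
  rw [mul_sum, ← sum_add_distrib]
  refine sum_le_sum fun s hs => ?_
  have h0 : 0 ≤ (N : ℝ) * c s := mul_nonneg (Nat.cast_nonneg N) (hc s hs)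
  have h1 := Nat.floor_le h0
  have h2 := Nat.lt_floor_add_one ((N : ℝ) * c s)
  have h3 : |(⌊(N : ℝ) * c s⌋₊ : ℝ) - N * c s| ≤ 1 := by
    rw [abs_le]
    constructor <;> linarith
  have h4 : ((⌊(N : ℝ) * c s⌋₊ : ℝ) - N * c s) * v s ≤ |v s| := by
    refine (le_abs_self _).trans ?_
    rw [abs_mul]
    exact mul_le_of_le_one_left (abs_nonneg _) h3
  linarith

end Pool.Agent.H66.FC
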