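import Mathlib

/-!
MP_75f39d_co, FC-families: gluing union-closed families over different traces.
-/

set_option autoImplicit false

namespace Pool.Agent.H66.FC

open Finset

variable {α : Type*} [DecidableEq α]

/-- The sets `T ∪ R k`, `T ∈ B k`. -/
def glue {κ : Type*} [Fintype κ] (R : κ → Finset α) (B : κ → Finset (Finset α)) :
    Finset (Finset α) :=
  univ.biUnion fun k => (B k).image fun T => T ∪ R k

section

variable {κ : Type*} [Fintype κ] {S : Finset α} {R : κ → Finset α} {B : κ → Finset (Finset α)}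

theorem mem_glue {Z : Finset α} : Z ∈ glue R B ↔ ∃ k, ∃ T ∈ B k, T ∪ R k = Z := by
  simp [glue]

private theorem parts {P Z W : Finset α} (hZ : Disjoint Z P) (hW : W ⊆ P) :
    (W ∪ Z) \ P = Z ∧ (W ∪ Z) ∩ P = W := by
  constructor
  · ext x
    simp only [mem_union, mem_sdiff]
    constructor
    · rintro ⟨h1 | h1, h2⟩
      · exact absurd (hW h1) h2
      · exact h1
    · intro h
      exact ⟨Or.inr h, fun h' => (disjoint_left.1 hZ h h').elim⟩
  · ext x
    simp only [mem_union, mem_inter]
    constructor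
    · rintro ⟨h1 | h1, h2⟩
      · exact h1
      · exact (disjoint_left.1 hZ h1 h2).elim
    · intro h
      exact ⟨Or.inl h, hW h⟩

theorem glue_iff (hR : Function.Injective R) (hRS : ∀ k, Disjoint (R k) S)
    (hB : ∀ k, ∀ T ∈ B k, T ⊆ S) {k : κ} {T : Finset α} (hT : T ⊆ S) :
    T ∪ R k ∈ glue R B ↔ T ∈ B k := by
  rw [mem_glue]
  constructor
  · rintro ⟨l, T', hT', h⟩
    have h1 := parts (hRS k) hT
    have h2 := parts (hRS l) (hB l T' hT')
    rw [h] at h2
    have h3 : R l = R k := h2.1.symm.trans h1.1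
    have h4 : T' = T := h2.2.symm.trans h1.2
    rw [← hR h3, ← h4]
    exact hT'
  · intro h
    exact ⟨k, T, h, rfl⟩

theorem card_glue (hR : Function.Injective R) (hRS : ∀ k, Disjoint (R k) S)
    (hB : ∀ k, ∀ T ∈ B k, T ⊆ S) : (glue R B).card = ∑ k, (B k).card := by
  unfold glue
  rw [card_biUnion]
  · refine sum_congr rfl fun k _ => ?_
    refine card_image_of_injOn ?_
    intro T hT T' hT' h
    have h1 := parts (hRS k) (hB k T hT)
    have h2 := parts (hRS k) (hB k T' hT')
    have h3 : T ∪ R k = T' ∪ R k := h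
    rw [h3] at h1
    exact h1.2.symm.trans h2.2
  · intro k _ l _ hkl
    show Disjoint ((B k).image fun T => T ∪ R k) ((B l).image fun T => T ∪ R l)
    rw [disjoint_left]
    intro Z hZ hZ'
    rw [mem_image] at hZ hZ'
    obtain ⟨T, hT, rfl⟩ := hZ
    obtain ⟨T', hT', h⟩ := hZ'
    have h1 := parts (hRS k) (hB k T hT)
    have h2 := parts (hRS l) (hB l T' hT')
    rw [h] at h2
    exact hkl (hR (h1.1.symm.trans h2.1))

theorem filter_glue (p q : Finset α → Prop) [DecidablePred p] [DecidablePred q]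
    (r : κ → Finset α → Prop) [∀ k, DecidablePred (r k)]
    (h : ∀ k, ∀ T ∈ B k, (p (T ∪ R k) ↔ r k T)) :
    (glue R B).filter p = glue R fun k => (B k).filter (r k) := by
  ext Z
  rw [mem_filter, mem_glue, mem_glue]
  constructor
  · rintro ⟨⟨k, T, hT, rfl⟩, h2⟩
    exact ⟨k, T, mem_filter.2 ⟨hT, (h k T hT).1 h2⟩, rfl⟩
  · rintro ⟨k, T, hT, rfl⟩
    rw [mem_filter] at hT
    exact ⟨⟨k, T, hT.1, rfl⟩, (h k T hT.1).2 hT.2⟩

end

/-- The excess of a point. -/
def exc (A : Finset (Finset α)) (x : α) : ℤ := 2 * ((A.filter fun T => x ∈ T).card : ℤ) - A.card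

/-- The number of members `T` such that `T ∪ {i}` is not a member for some `i ∈ S`. -/
def dfc (S : Finset α) (A : Finset (Finset α)) : ℕ :=
  (A.filter fun T => ∃ i ∈ S, insert i T ∉ A).card

section

variable {κ : Type*} [Fintype κ] {S : Finset α} {R : κ → Finset α} {B : κ → Finset (Finset α)}

theorem exc_glue (hR : Function.Injective R) (hRS : ∀ k, Disjoint (R k) S)
    (hB : ∀ k, ∀ T ∈ B k, T ⊆ S) {x : α} (hx : x ∈ S) :
    exc (glue R B) x = ∑ k, exc (B k) x := by
  unfold exc
  rw [filter_glue (fun T => x ∈ T) (fun T => x ∈ T) (fun _ T => x ∈ T), card_glue hR hRS hB,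
    card_glue hR hRS (fun k T hT => hB k T (mem_filter.1 hT).1)]
  · push_cast
    rw [mul_sum, ← sum_sub_distrib]
  · intro k T _
    rw [mem_union]
    exact ⟨fun h => h.resolve_right fun h' => disjoint_left.1 (hRS k) h' hx, Or.inl⟩

theorem dfc_glue (hR : Function.Injective R) (hRS : ∀ k, Disjoint (R k) S)
    (hB : ∀ k, ∀ T ∈ B k, T ⊆ S) : dfc S (glue R B) = ∑ k, dfc S (B k) := by
  unfold dfc
  rw [filter_glue (fun T => ∃ i ∈ S, insert i T ∉ glue R B)
    (fun T => ∃ i ∈ S, insert i T ∉ glue R B) (fun k T => ∃ i ∈ S, insert i T ∉ B k),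
    card_glue hR hRS (fun k T hT => hB k T (mem_filter.1 hT).1)]
  intro k T hT
  constructor
  · rintro ⟨i, hi, h⟩
    refine ⟨i, hi, fun h' => h ?_⟩
    rw [← insert_union, glue_iff hR hRS hB (insert_subset hi (hB k T hT))]
    exact h'
  · rintro ⟨i, hi, h⟩
    refine ⟨i, hi, fun h' => h ?_⟩
    rw [← insert_union, glue_iff hR hRS hB (insert_subset hi (hB k T hT))] at h'
    exact h'

end

theorem exc_le (A : Finset (Finset α)) (x : α) : exc A x ≤ A.card := by
  unfold exc
  have h : ((A.filter fun T => x ∈ T).card : ℤ) ≤ A.card := by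
    exact_mod_cast card_le_card (filter_subset _ A)
  linarith

theorem exc_powerset {S : Finset α} {x : α} (hx : x ∈ S) : exc S.powerset x = 0 := by
  unfold exc
  have h : (S.powerset.filter fun T => x ∈ T).card = (S.powerset.filter fun T => ¬ x ∈ T).card := by
    refine card_bij' (fun T _ => T.erase x) (fun T _ => insert x T) ?_ ?_ ?_ ?_
    · intro T hT
      rw [mem_filter, mem_powerset] at hT ⊢
      exact ⟨(erase_subset x T).trans hT.1, notMem_erase x T⟩
    · intro T hT
      rw [mem_filter, mem_powerset] at hT ⊢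
      exact ⟨insert_subset hx hT.1, mem_insert_self x T⟩
    · intro T hT
      exact insert_erase (mem_filter.1 hT).2
    · intro T hT
      exact erase_insert (mem_filter.1 hT).2
  have h2 := card_filter_add_card_filter_not (s := S.powerset) (fun T => x ∈ T)
  rw [← h] at h2
  have h3 : ((S.powerset.filter fun T => x ∈ T).card : ℤ) +
      ((S.powerset.filter fun T => x ∈ T).card : ℤ) = (S.powerset.card : ℤ) := by exact_mod_cast h2
  linarith

/-- Union-closed families `B k` on `S` that contain `F` can be glued to one union-closed family that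
contains `F`: the excess of the points of `S` is the sum of the excesses in the `B k`, up to a
bounded error. -/
theorem comb [Infinite α] {κ : Type*} [Fintype κ] [DecidableEq κ] {S : Finset α}
    {B : κ → Finset (Finset α)} (hBS : ∀ k, ∀ T ∈ B k, T ⊆ S)
    (hBU : ∀ k, ∀ T ∈ B k, ∀ T' ∈ B k, T ∪ T' ∈ B k) {F : Finset (Finset α)}
    (hFS : ∀ T ∈ F, T ⊆ S) (hFB : ∀ k, F ⊆ B k) :
    ∃ A : Finset (Finset α), (∀ T ∈ A, ∀ T' ∈ A, T ∪ T' ∈ A) ∧ F ⊆ A ∧
      (∀ x ∈ S, exc A x ≤ 2 ^ S.card + ∑ k, exc (B k) x) ∧ ∑ k, dfc S (B k) ≤ dfc S A := by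
  -- fresh points
  have hinf : Infinite {a : α // a ∉ S} := by
    have h1 : ((S : Set α)ᶜ).Infinite := S.finite_toSet.infinite_compl
    exact Set.infinite_coe_iff.2 h1
  obtain ⟨e, he⟩ : ∃ e : Option κ → α, Function.Injective e ∧ ∀ o, e o ∉ S := by
    refine ⟨fun o => (Infinite.natEmbedding {a : α // a ∉ S}
      (Fintype.equivFin (Option κ) o : ℕ) : {a : α // a ∉ S}).1, ?_,
      fun o => (Infinite.natEmbedding {a : α // a ∉ S} (Fintype.equivFin (Option κ) o : ℕ)).2⟩
    intro o o' h
    have h1 := (Infinite.natEmbedding {a : α // a ∉ S}).injective (Subtype.ext h)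
    exact (Fintype.equivFin (Option κ)).injective (Fin.val_injective h1)
  obtain ⟨X, hX⟩ : ∃ X : Finset α, X = univ.image e := ⟨_, rfl⟩
  have hXe : ∀ o, e o ∈ X := fun o => by rw [hX]; exact mem_image_of_mem e (mem_univ o)
  have hXS : Disjoint X S := by
    rw [disjoint_left, hX]
    intro a ha
    rw [mem_image] at ha
    obtain ⟨o, -, rfl⟩ := ha
    exact he.2 o
  obtain ⟨F', hF'⟩ : ∃ F' : Finset (Finset α), F' = S.powerset.filter fun T => ∀ k, T ∈ B k :=
    ⟨_, rfl⟩
  have mF' : ∀ T, T ∈ F' ↔ T ⊆ S ∧ ∀ k, T ∈ B k := fun T => by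
    rw [hF', mem_filter, mem_powerset]
  -- the traces: `none` the empty trace, `some none` the full one
  obtain ⟨R, hR0, hR1, hR2⟩ : ∃ R : Option (Option κ) → Finset α,
      R none = ∅ ∧ R (some none) = X ∧ ∀ k, R (some (some k)) = X.erase (e (some k)) :=
    ⟨fun q => match q with
      | none => ∅
      | some none => X
      | some (some k) => X.erase (e (some k)), rfl, rfl, fun _ => rfl⟩
  obtain ⟨G, hG0, hG1, hG2⟩ : ∃ G : Option (Option κ) → Finset (Finset α),
      G none = F' ∧ G (some none) = S.powerset ∧ ∀ k, G (some (some k)) = B k :=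
    ⟨fun q => match q with
      | none => F'
      | some none => S.powerset
      | some (some k) => B k, rfl, rfl, fun _ => rfl⟩
  have hnn : ∀ k, e none ∈ X.erase (e (some k)) := fun k =>
    mem_erase.2 ⟨fun h => by simpa using he.1 h, hXe none⟩
  have hRinj : Function.Injective R := by
    intro q q' h
    rcases q with _ | _ | k <;> rcases q' with _ | _ | l
    · rfl
    · rw [hR0, hR1] at h
      exact absurd (h ▸ hXe none : e none ∈ (∅ : Finset α)) (notMem_empty _)
    · rw [hR0, hR2] at h
      exact absurd (h ▸ hnn l : e none ∈ (∅ : Finset α)) (notMem_empty _)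
    · rw [hR0, hR1] at h
      exact absurd (h ▸ hXe none : e none ∈ (∅ : Finset α)) (notMem_empty _)
    · rfl
    · rw [hR1, hR2] at h
      have h1 := hXe (some l)
      rw [h] at h1
      exact absurd h1 (notMem_erase _ _)
    · rw [hR0, hR2] at h
      exact absurd (h ▸ hnn k : e none ∈ (∅ : Finset α)) (notMem_empty _)
    · rw [hR1, hR2] at h
      have h1 := hXe (some k)
      rw [← h] at h1
      exact absurd h1 (notMem_erase _ _)
    · rw [hR2, hR2] at h
      by_contra hne
      have h1 : e (some k) ∈ X.erase (e (some l)) := by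
        rw [mem_erase]
        refine ⟨fun h' => hne ?_, hXe _⟩
        rw [he.1 h']
      rw [← h] at h1
      exact absurd h1 (notMem_erase _ _)
  have hRX : ∀ q, R q ⊆ X := by
    rintro (_ | _ | k)
    · rw [hR0]; exact empty_subset X
    · rw [hR1]
    · rw [hR2]; exact erase_subset _ _
  have hRS : ∀ q, Disjoint (R q) S := fun q => disjoint_of_subset_left (hRX q) hXS
  have hGS : ∀ q, ∀ T ∈ G q, T ⊆ S := by
    rintro (_ | _ | k) T hT
    · rw [hG0, mF'] at hT; exact hT.1
    · rw [hG1, mem_powerset] at hT; exact hT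
    · rw [hG2] at hT; exact hBS k T hT
  have hpw : ∀ q q', ∀ T ∈ G q, ∀ T' ∈ G q', T ∪ T' ∈ S.powerset := fun q q' T hT T' hT' =>
    mem_powerset.2 (union_subset (hGS q T hT) (hGS q' T' hT'))
  -- union of two traces
  have hmul : ∀ q q', ∃ q'', R q ∪ R q' = R q'' ∧ ∀ T ∈ G q, ∀ T' ∈ G q', T ∪ T' ∈ G q'' := by
    rintro (_ | _ | k) q'
    · refine ⟨q', by rw [hR0, empty_union], fun T hT T' hT' => ?_⟩
      rw [hG0, mF'] at hT
      rcases q' with _ | _ | l
      · rw [hG0, mF'] at hT' ⊢
        exact ⟨union_subset hT.1 hT'.1, fun k => hBU k T (hT.2 k) T' (hT'.2 k)⟩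
      · rw [hG1] at hT' ⊢
        exact mem_powerset.2 (union_subset hT.1 (mem_powerset.1 hT'))
      · rw [hG2] at hT' ⊢
        exact hBU l T (hT.2 l) T' hT'
    · refine ⟨some none, ?_, fun T hT T' hT' => ?_⟩
      · rw [hR1]
        exact union_eq_left.2 (hRX q')
      · rw [hG1]
        exact hpw _ _ T hT T' hT'
    · rcases q' with _ | _ | l
      · refine ⟨some (some k), by rw [hR0, union_empty], fun T hT T' hT' => ?_⟩
        rw [hG0, mF'] at hT'
        rw [hG2] at hT ⊢
        exact hBU k T hT T' (hT'.2 k)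
      · refine ⟨some none, ?_, fun T hT T' hT' => ?_⟩
        · rw [hR1]
          exact union_eq_right.2 (hRX _)
        · rw [hG1]
          exact hpw _ _ T hT T' hT'
      · by_cases hkl : k = l
        · subst hkl
          refine ⟨some (some k), union_self _, fun T hT T' hT' => ?_⟩
          rw [hG2] at hT hT' ⊢
          exact hBU k T hT T' hT'
        · refine ⟨some none, ?_, fun T hT T' hT' => ?_⟩
          · rw [hR1]
            refine Subset.antisymm (union_subset (hRX _) (hRX _)) fun x hx => ?_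
            rw [mem_union, hR2, hR2, mem_erase, mem_erase]
            by_cases hxk : x = e (some k)
            · right
              refine ⟨fun h => hkl ?_, hx⟩
              have h1 := he.1 (hxk.symm.trans h)
              simpa using h1
            · exact Or.inl ⟨hxk, hx⟩
          · rw [hG1]
            exact hpw _ _ T hT T' hT'
  refine ⟨glue R G, ?_, ?_, ?_, ?_⟩
  · intro Z hZ Z' hZ'
    rw [mem_glue] at hZ hZ' ⊢
    obtain ⟨q, T, hT, rfl⟩ := hZ
    obtain ⟨q', T', hT', rfl⟩ := hZ'
    obtain ⟨q'', h1, h2⟩ := hmul q q'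
    refine ⟨q'', T ∪ T', h2 T hT T' hT', ?_⟩
    rw [← h1]
    ext x
    simp only [mem_union]
    tauto
  · intro T hT
    rw [mem_glue]
    refine ⟨none, T, ?_, by rw [hR0, union_empty]⟩
    rw [hG0, mF']
    exact ⟨hFS T hT, fun k => hFB k hT⟩
  · intro x hx
    rw [exc_glue hRinj hRS hGS hx, Fintype.sum_option, Fintype.sum_option, hG0, hG1,
      exc_powerset hx]
    have h1 : exc F' x ≤ 2 ^ S.card := by
      refine (exc_le F' x).trans ?_
      have h2 : F'.card ≤ 2 ^ S.card := by
        rw [← card_powerset, hF']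
        exact card_le_card (filter_subset _ _)
      exact_mod_cast h2
    simp only [hG2]
    linarith
  · rw [dfc_glue hRinj hRS hGS, Fintype.sum_option, Fintype.sum_option]
    simp only [hG2]
    omega

end Pool.Agent.H66.FC
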