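import Pool.Agent.H66.FC.Nec
import Pool.Agent.H66.FC.Petal
import Pool.Agent.H66.FC.Comb
import Pool.Agent.H66.FC.Alt

/-!
MP_75f39d_co, FC-families: the weights exist.
-/

set_option autoImplicit false

namespace Pool.Agent.H66.FC

open Finset Pool.Agent.H51.UC Pool.Agent.H62.UC

variable {α : Type*} [DecidableEq α]

/-- The boundary conditions for the weights `lam`. -/
def Rate (F : Finset (Finset α)) (S : Finset α) (lam : α → ℝ) : Prop :=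
  ∀ i ∈ S, ∀ E ⊆ Ds F S i, Down E →
    lam i * (E.card : ℝ) ≤ ∑ j ∈ S.erase i, lam j * (ex E j : ℝ)

theorem exc_cast (A : Finset (Finset α)) (x : α) : ((exc A x : ℤ) : ℝ) =
    2 * ((A.filter (fun T => x ∈ T)).card : ℝ) - (A.card : ℝ) := by
  unfold exc
  push_cast
  rfl

theorem sum_tst {S : Finset α} {F : Finset (Finset α)} {i : α} (hi : i ∈ S)
    {E : Finset (Finset α)} (hE : E ⊆ Ds F S i) (hd : Down E) (lam : α → ℝ) :
    ∑ x ∈ S, lam x * ((exc (tst S i E) x : ℤ) : ℝ) =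
      (∑ j ∈ S.erase i, lam j * (ex E j : ℝ)) - lam i * (E.card : ℝ) := by
  rw [← add_sum_erase S _ hi, exc_cast, exc_self hi hE,
    sum_congr rfl fun j hj => by rw [exc_cast, exc_other hi hj hE hd]]
  unfold ex
  ring

theorem dfc_tst {S : Finset α} {F : Finset (Finset α)} {i : α} (hi : i ∈ S)
    {E : Finset (Finset α)} (hE : E ⊆ Ds F S i) (hne : E.Nonempty) : 1 ≤ dfc S (tst S i E) := by
  obtain ⟨Y, hY⟩ := hne
  have h1 : Y ∈ Ns (tst S i E) i := by rwa [Ns_tst_self hi hE]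
  rw [mem_Ns] at h1
  exact card_pos.2 ⟨Y, mem_filter.2 ⟨h1.1, i, hi, h1.2.2⟩⟩

theorem blow [Infinite α] {S : Finset α} {F : Finset (Finset α)} (hFS : ∀ T ∈ F, T ⊆ S)
    (I : Finset (α × Finset (Finset α)))
    (hI : ∀ s ∈ I, s.1 ∈ S ∧ s.2 ⊆ Ds F S s.1 ∧ Down s.2) (m : α × Finset (Finset α) → ℕ) :
    ∃ A : Finset (Finset α), (∀ T ∈ A, ∀ T' ∈ A, T ∪ T' ∈ A) ∧ F ⊆ A ∧
      (∀ x ∈ S, ((exc A x : ℤ) : ℝ) ≤
        2 ^ S.card + ∑ s ∈ I, (m s : ℝ) * ((exc (tst S s.1 s.2) x : ℤ) : ℝ)) ∧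
      ∑ s ∈ I, m s * dfc S (tst S s.1 s.2) ≤ dfc S A := by
  obtain ⟨A, h1, h2, h3, h4⟩ := comb (α := α) (κ := Σ s : {s // s ∈ I}, Fin (m s.1)) (S := S)
    (B := fun k => tst S k.1.1.1 k.1.1.2) (fun k T hT => (mem_tst.1 hT).1)
    (fun k => tst_union (hI _ k.1.2).2.2) (F := F) hFS (fun k => sub_tst hFS (hI _ k.1.2).2.1)
  refine ⟨A, h1, h2, fun x hx => ?_, ?_⟩
  · have h5 := h3 x hx
    rw [Fintype.sum_sigma] at h5
    simp only [sum_const, card_univ, Fintype.card_fin, nsmul_eq_mul] at h5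
    rw [← sum_coe_sort I]
    exact_mod_cast h5
  · rw [Fintype.sum_sigma] at h4
    simp only [sum_const, card_univ, Fintype.card_fin, smul_eq_mul] at h4
    rw [← sum_coe_sort I]
    exact h4

open Classical in
/-- The index set of the boundary conditions. -/
noncomputable def idx (F : Finset (Finset α)) (S : Finset α) : Finset (α × Finset (Finset α)) :=
  (S ×ˢ S.powerset.powerset).filter fun s => s.2 ⊆ Ds F S s.1 ∧ Down s.2 ∧ s.2.Nonempty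

open Classical in
theorem mem_idx {F : Finset (Finset α)} {S : Finset α} {i : α} {E : Finset (Finset α)} :
    (i, E) ∈ idx F S ↔ i ∈ S ∧ E ⊆ Ds F S i ∧ Down E ∧ E.Nonempty := by
  unfold idx
  rw [mem_filter, mem_product]
  constructor
  · rintro ⟨⟨h1, _⟩, h3⟩
    exact ⟨h1, h3⟩
  · rintro ⟨h1, h3⟩
    refine ⟨⟨h1, mem_powerset.2 fun Y hY => mem_powerset.2 ?_⟩, h3⟩
    exact ((mem_Ds.1 (h3.1 hY)).1).trans (erase_subset i S)

/-- The weights exist if every union-closed family that contains `F` has a frequent point in `S`. -/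
theorem weights_of_fc [Infinite α] {S : Finset α} {F : Finset (Finset α)}
    (hFS : ∀ T ∈ F, T ⊆ S)
    (h : ∀ A : Finset (Finset α), (∀ T ∈ A, ∀ T' ∈ A, T ∪ T' ∈ A) → F ⊆ A →
      ∃ x ∈ S, A.card ≤ 2 * (A.filter (fun T => x ∈ T)).card) :
    ∃ lam : α → ℝ, (∀ x ∈ S, 0 ≤ lam x) ∧ (∃ x ∈ S, 0 < lam x) ∧ Rate F S lam := by
  classical
  by_contra hcon
  obtain ⟨c, hc, hneg⟩ := ville S (idx F S) (fun s x => ((exc (tst S s.1 s.2) x : ℤ) : ℝ)) (by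
    intro lam h1 h2 x hx
    by_contra hx0
    refine hcon ⟨lam, h1, ⟨x, hx, lt_of_le_of_ne (h1 x hx) (Ne.symm hx0)⟩, ?_⟩
    intro i hi E hE hd
    rcases E.eq_empty_or_nonempty with h3 | h3
    · rw [h3, card_empty, Nat.cast_zero, mul_zero]
      exact sum_nonneg fun j hj => mul_nonneg (h1 j (mem_of_mem_erase hj)) (Nat.cast_nonneg _)
    · have h4 := h2 (i, E) (mem_idx.2 ⟨hi, hE, hd, h3⟩)
      rw [sum_tst hi hE hd] at h4
      linarith)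
  -- a common gap
  obtain ⟨δ, hδ, hgap⟩ : ∃ δ : ℝ, 0 < δ ∧ ∀ x ∈ S,
      ∑ s ∈ idx F S, c s * ((exc (tst S s.1 s.2) x : ℤ) : ℝ) ≤ -δ := by
    rcases S.eq_empty_or_nonempty with hS | hS
    · exact ⟨1, one_pos, fun x hx => by rw [hS] at hx; exact absurd hx (notMem_empty x)⟩
    · obtain ⟨x0, hx0, hmax⟩ := exists_max_image S
        (fun x => ∑ s ∈ idx F S, c s * ((exc (tst S s.1 s.2) x : ℤ) : ℝ)) hS
      exact ⟨-(∑ s ∈ idx F S, c s * ((exc (tst S s.1 s.2) x0 : ℤ) : ℝ)), by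
        linarith [hneg x0 hx0], fun x hx => by rw [neg_neg]; exact hmax x hx⟩
  obtain ⟨K, hK⟩ : ∃ K : ℝ, ∀ x ∈ S,
      ∑ s ∈ idx F S, |((exc (tst S s.1 s.2) x : ℤ) : ℝ)| ≤ K := by
    refine ⟨∑ x ∈ S, ∑ s ∈ idx F S, |((exc (tst S s.1 s.2) x : ℤ) : ℝ)|, fun x hx => ?_⟩
    exact single_le_sum (f := fun x => ∑ s ∈ idx F S, |((exc (tst S s.1 s.2) x : ℤ) : ℝ)|)
      (fun y _ => sum_nonneg fun _ _ => abs_nonneg _) hx
  obtain ⟨N, hN⟩ := exists_nat_gt ((2 ^ S.card + K) / δ)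
  rw [div_lt_iff₀ hδ] at hN
  obtain ⟨A, hA1, hA2, hA3, -⟩ := blow hFS (idx F S)
    (fun s hs => by
      obtain ⟨a, b⟩ := s
      have h1 := mem_idx.1 hs
      exact ⟨h1.1, h1.2.1, h1.2.2.1⟩) (fun s => ⌊(N : ℝ) * c s⌋₊)
  obtain ⟨x, hx, hfr⟩ := h A hA1 hA2
  have h1 := hA3 x hx
  have h2 := floor_sum (idx F S) (c := c)
    (v := fun s => ((exc (tst S s.1 s.2) x : ℤ) : ℝ)) hc N
  have h3 := mul_le_mul_of_nonneg_left (hgap x hx) (Nat.cast_nonneg (α := ℝ) N)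
  have h4 := hK x hx
  have h5 : (0 : ℝ) ≤ ((exc A x : ℤ) : ℝ) := by
    rw [exc_cast]
    have h6 : (A.card : ℝ) ≤ ((2 * (A.filter (fun T => x ∈ T)).card : ℕ) : ℝ) := by
      exact_mod_cast hfr
    push_cast at h6
    linarith
  linarith

/-- Positive weights with strict boundary conditions exist if the excess is uniformly large. -/
theorem weights_of_strict [Infinite α] {S : Finset α} {F : Finset (Finset α)}
    (hFS : ∀ T ∈ F, T ⊆ S) {ε : ℝ} (hε : 0 < ε)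
    (h : ∀ A : Finset (Finset α), (∀ T ∈ A, ∀ T' ∈ A, T ∪ T' ∈ A) → F ⊆ A →
      ∃ x ∈ S, ε * ((A.filter fun T => ∃ i ∈ S, insert i T ∉ A).card : ℝ) ≤
        2 * ((A.filter (fun T => x ∈ T)).card : ℝ) - A.card) :
    ∃ lam : α → ℝ, (∀ x ∈ S, 0 < lam x) ∧ ∀ i ∈ S, ∀ E ⊆ Ds F S i, Down E → E.Nonempty →
      lam i * (E.card : ℝ) < ∑ j ∈ S.erase i, lam j * (ex E j : ℝ) := by
  classical
  by_contra hcon
  obtain ⟨c, hc, ⟨s0, hs0, hc0⟩, hneg⟩ := gordan S (idx F S)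
    (fun s x => ((exc (tst S s.1 s.2) x : ℤ) : ℝ)) (by
    rintro ⟨lam, h1, h2⟩
    refine hcon ⟨lam, h1, ?_⟩
    intro i hi E hE hd h3
    have h4 := h2 (i, E) (mem_idx.2 ⟨hi, hE, hd, h3⟩)
    rw [sum_tst hi hE hd] at h4
    linarith)
  obtain ⟨K, hK⟩ : ∃ K : ℝ, ∀ x ∈ S,
      ∑ s ∈ idx F S, |((exc (tst S s.1 s.2) x : ℤ) : ℝ)| ≤ K := by
    refine ⟨∑ x ∈ S, ∑ s ∈ idx F S, |((exc (tst S s.1 s.2) x : ℤ) : ℝ)|, fun x hx => ?_⟩
    exact single_le_sum (f := fun x => ∑ s ∈ idx F S, |((exc (tst S s.1 s.2) x : ℤ) : ℝ)|)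
      (fun y _ => sum_nonneg fun _ _ => abs_nonneg _) hx
  obtain ⟨N, hN⟩ := exists_nat_gt (((2 ^ S.card + K) / ε + 1) / c s0)
  rw [div_lt_iff₀ hc0] at hN
  obtain ⟨A, hA1, hA2, hA3, hA4⟩ := blow hFS (idx F S)
    (fun s hs => by
      obtain ⟨a, b⟩ := s
      have h1 := mem_idx.1 hs
      exact ⟨h1.1, h1.2.1, h1.2.2.1⟩) (fun s => ⌊(N : ℝ) * c s⌋₊)
  obtain ⟨x, hx, hfr⟩ := h A hA1 hA2
  have h1 := hA3 x hx
  have h2 := floor_sum (idx F S) (c := c)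
    (v := fun s => ((exc (tst S s.1 s.2) x : ℤ) : ℝ)) hc N
  have h3 := mul_le_mul_of_nonneg_left (hneg x hx) (Nat.cast_nonneg (α := ℝ) N)
  have h4 := hK x hx
  rw [mul_zero] at h3
  rw [← exc_cast] at hfr
  have h5 : (⌊(N : ℝ) * c s0⌋₊ : ℝ) ≤
      ((A.filter fun T => ∃ i ∈ S, insert i T ∉ A).card : ℝ) := by
    have h6 : ⌊(N : ℝ) * c s0⌋₊ ≤ dfc S A := by
      refine le_trans ?_ hA4
      have h7 := single_le_sum (s := idx F S)
        (f := fun s => ⌊(N : ℝ) * c s⌋₊ * dfc S (tst S s.1 s.2)) (fun _ _ => Nat.zero_le _) hs0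
      refine le_trans ?_ h7
      obtain ⟨a, b⟩ := s0
      have h8 := mem_idx.1 hs0
      exact Nat.le_mul_of_pos_right _ (dfc_tst h8.1 h8.2.1 h8.2.2.2)
    exact_mod_cast h6
  have h6 := Nat.lt_floor_add_one ((N : ℝ) * c s0)
  have h7 : (2 ^ S.card + K) / ε < ((A.filter fun T => ∃ i ∈ S, insert i T ∉ A).card : ℝ) := by
    linarith
  rw [div_lt_iff₀ hε] at h7
  linarith

end Pool.Agent.H66.FC
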