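import Pool.Agent.H66.FC.Petal
import Pool.Agent.H66.FC.Alt

/-!
MP_75f39d_co, FC-families: the max-flow form of the boundary conditions.
-/

set_option autoImplicit false

namespace Pool.Agent.H66.FC

open Finset Pool.Agent.H51.UC

variable {α : Type*} [DecidableEq α]

theorem ex_eq_bj {V : Finset α} {X : Finset (Finset α)} (hX : X ⊆ V.powerset) (j : α) :
    ex X j = bj V X j := by
  unfold ex bj
  rw [← card_filter]
  congr 1
  ext Y
  rw [mem_filter, mem_filter, mem_powerset]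
  constructor
  · rintro ⟨h1, h2, h3⟩
    exact ⟨subset_erase.2 ⟨mem_powerset.1 (hX h1), h2⟩, h1, h3⟩
  · rintro ⟨h1, h2, h3⟩
    exact ⟨h2, (subset_erase.1 h1).2, h3⟩

/-- The weight of the up-edges that leave `X`. -/
def bl (V : Finset α) (lam : α → ℝ) (X : Finset (Finset α)) : ℝ :=
  ∑ j ∈ V, lam j * (ex X j : ℝ)

theorem bl_up_lo {V : Finset α} {lam : α → ℝ} (hlam : ∀ j ∈ V, 0 ≤ lam j) {k : α} (hk : k ∈ V)
    {X : Finset (Finset α)} (hX : X ⊆ V.powerset) :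
    bl V lam (up k X) + bl V lam (lo k X) ≤ 2 * bl V lam X := by
  unfold bl
  rw [← sum_add_distrib, mul_sum]
  refine sum_le_sum fun j hj => ?_
  rw [ex_eq_bj (up_sub hX), ex_eq_bj (lo_sub.trans hX), ex_eq_bj hX, ← mul_add]
  have h1 : bj V (up k X) j + bj V (lo k X) j ≤ 2 * bj V X j := by
    by_cases hjk : j = k
    · rw [hjk, (bj_same k X).1, (bj_same k X).2, two_mul]
    · exact bj_le hjk hk X
  have h2 : ((bj V (up k X) j : ℝ)) + (bj V (lo k X) j : ℝ) ≤ 2 * (bj V X j : ℝ) := by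
    exact_mod_cast h1
  calc lam j * ((bj V (up k X) j : ℝ) + (bj V (lo k X) j : ℝ)) ≤ lam j * (2 * (bj V X j : ℝ)) :=
        mul_le_mul_of_nonneg_left h2 (hlam j hj)
    _ = 2 * (lam j * (bj V X j : ℝ)) := by ring

/-- The boundary conditions for down-sets imply those for all subfamilies. -/
theorem min_down_w {V : Finset α} {lam : α → ℝ} (hlam : ∀ j ∈ V, 0 ≤ lam j)
    {D : Finset (Finset α)} (hDV : D ⊆ V.powerset) (hD : Down D)
    {c : ℝ} (h : ∀ X ⊆ D, Down X → c * (X.card : ℝ) ≤ bl V lam X)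
    {X : Finset (Finset α)} (hX : X ⊆ D) : c * (X.card : ℝ) ≤ bl V lam X := by
  obtain ⟨φ, hφ⟩ : ∃ φ : Finset (Finset α) → ℝ, φ = fun X => bl V lam X - c * X.card :=
    ⟨_, rfl⟩
  obtain ⟨X0, hX0, hmin⟩ := exists_min_image D.powerset φ ⟨∅, empty_mem_powerset D⟩
  obtain ⟨X1, hX1, hmax⟩ := exists_max_image (D.powerset.filter (fun X => φ X = φ X0))
    (fun X => X.card) ⟨X0, mem_filter.2 ⟨hX0, rfl⟩⟩
  rw [mem_filter, mem_powerset] at hX1
  have hX1V : X1 ⊆ V.powerset := hX1.1.trans hDV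
  have hup : ∀ k ∈ V, up k X1 = X1 := by
    intro k hk
    have h1 := card_up_lo hk hX1V
    have h2' := bl_up_lo hlam hk hX1V
    have h1' : ((up k X1).card : ℝ) + ((lo k X1).card : ℝ) = 2 * (X1.card : ℝ) := by
      exact_mod_cast h1
    have hA : up k X1 ⊆ D := by
      intro Y hY
      rw [mem_up] at hY
      rcases hY with h | h
      · exact hX1.1 h
      · exact hD _ (hX1.1 h.2) _ (subset_insert k Y)
    have hB : lo k X1 ⊆ D := lo_sub.trans hX1.1
    have h3 := hmin _ (mem_powerset.2 hA)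
    have h4 := hmin _ (mem_powerset.2 hB)
    have h5 : φ (up k X1) + φ (lo k X1) ≤ 2 * φ X1 := by
      rw [hφ]
      dsimp only
      have h6 : c * ((up k X1).card : ℝ) + c * ((lo k X1).card : ℝ) = 2 * (c * (X1.card : ℝ)) := by
        rw [← mul_add, h1']
        ring
      linarith
    have h7 : φ (up k X1) = φ X0 := by
      have h8 := hX1.2
      linarith
    have h9 := hmax _ (mem_filter.2 ⟨mem_powerset.2 hA, h7⟩)
    have h10 : X1 ⊆ up k X1 := fun Y hY => mem_up.2 (Or.inl hY)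
    exact (eq_of_subset_of_card_le h10 h9).symm
  have hdown : Down X1 := by
    have key : ∀ n : ℕ, ∀ Y ∈ X1, ∀ Z ⊆ Y, (Y \ Z).card = n → Z ∈ X1 := by
      intro n
      induction n with
      | zero =>
        intro Y hY Z hZ hc
        rw [card_eq_zero, sdiff_eq_empty_iff_subset] at hc
        rw [Subset.antisymm hZ hc]
        exact hY
      | succ n ih =>
        intro Y hY Z hZ hc
        have hne : (Y \ Z).Nonempty := card_pos.1 (by omega)
        obtain ⟨k, hk⟩ := hne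
        have hk' := mem_sdiff.1 hk
        have hkV : k ∈ V := mem_powerset.1 (hX1V hY) hk'.1
        have h1 : Y.erase k ∈ X1 := by
          rw [← hup k hkV, mem_up]
          right
          refine ⟨notMem_erase k Y, ?_⟩
          rw [insert_erase hk'.1]
          exact hY
        refine ih (Y.erase k) h1 Z (subset_erase.2 ⟨hZ, hk'.2⟩) ?_
        have h2 : Y.erase k \ Z = (Y \ Z).erase k := by
          ext a
          simp only [mem_sdiff, mem_erase]
          tauto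
        rw [h2, card_erase_of_mem hk, hc]
        rfl
    exact fun Y hY Z hZ => key _ Y hY Z hZ rfl
  have h11 := h X1 hX1.1 hdown
  have h12 := hmin X (mem_powerset.2 hX)
  have h13 := hX1.2
  rw [hφ] at h12 h13
  dsimp only at h12 h13
  linarith

/-- The boundary as a sum over the members. -/
theorem bl_eq {V : Finset α} {lam : α → ℝ} (X : Finset (Finset α)) :
    bl V lam X = ∑ Y ∈ X, ∑ j ∈ V \ Y, if insert j Y ∈ X then 0 else lam j := by
  have h1 : ∀ Y ∈ X, (∑ j ∈ V \ Y, if insert j Y ∈ X then (0 : ℝ) else lam j) =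
      ∑ j ∈ V, if j ∉ Y ∧ insert j Y ∉ X then lam j else 0 := by
    intro Y _
    have h2 : V \ Y = V.filter fun j => j ∉ Y := by
      ext x
      rw [mem_sdiff, mem_filter]
    rw [h2, sum_filter]
    refine sum_congr rfl fun j _ => ?_
    by_cases h3 : j ∈ Y <;> by_cases h4 : insert j Y ∈ X <;> simp [h3, h4]
  rw [sum_congr rfl h1, sum_comm]
  unfold bl
  refine sum_congr rfl fun j _ => ?_
  unfold ex
  rw [← sum_filter, sum_const, nsmul_eq_mul, mul_comm]

/-- The co-area inequality. -/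
theorem coarea {V : Finset α} {lam : α → ℝ}
    {D : Finset (Finset α)} {μ : ℝ} (h : ∀ X ⊆ D, μ * (X.card : ℝ) ≤ bl V lam X) (n : ℕ) :
    ∀ φ : Finset α → ℝ, (∀ Y, 0 ≤ φ Y) → (∀ Y, Y ∉ D → φ Y = 0) →
      (D.filter fun Y => φ Y ≠ 0).card = n →
      μ * ∑ Y ∈ D, φ Y ≤
        ∑ Y ∈ D, ∑ j ∈ V \ Y, lam j * max (φ Y - φ (insert j Y)) 0 := by
  induction n using Nat.strong_induction_on with
  | _ n ih =>
    intro φ hφ hφD hn
    obtain ⟨X, hX⟩ : ∃ X, X = D.filter fun Y => φ Y ≠ 0 := ⟨_, rfl⟩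
    have mX : ∀ Y, Y ∈ X ↔ φ Y ≠ 0 := by
      intro Y
      rw [hX, mem_filter]
      exact ⟨fun h => h.2, fun h => ⟨by_contra fun h' => h (hφD Y h'), h⟩⟩
    have hXD : X ⊆ D := by rw [hX]; exact filter_subset _ _
    rcases X.eq_empty_or_nonempty with hX0 | hX0
    · have h0 : ∀ Y, φ Y = 0 := by
        intro Y
        by_contra h'
        have := (mX Y).2 h'
        rw [hX0] at this
        exact notMem_empty _ this
      simp [h0]
    · obtain ⟨Y0, hY0, hmin⟩ := exists_min_image X φ hX0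
      have ht : 0 < φ Y0 := lt_of_le_of_ne (hφ Y0) (Ne.symm ((mX Y0).1 hY0))
      obtain ⟨t, htt⟩ : ∃ t, t = φ Y0 := ⟨_, rfl⟩
      rw [← htt] at ht hmin
      obtain ⟨ψ, hψ⟩ : ∃ ψ : Finset α → ℝ, ψ = fun Y => if Y ∈ X then φ Y - t else 0 := ⟨_, rfl⟩
      have hψ1 : ∀ Y ∈ X, ψ Y = φ Y - t := fun Y hY => by rw [hψ]; exact if_pos hY
      have hψ0 : ∀ Y, Y ∉ X → ψ Y = 0 := fun Y hY => by rw [hψ]; exact if_neg hY
      have hφ0 : ∀ Y, Y ∉ X → φ Y = 0 := fun Y hY => by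
        by_contra h'
        exact hY ((mX Y).2 h')
      have hψn : ∀ Y, 0 ≤ ψ Y := by
        intro Y
        by_cases hY : Y ∈ X
        · rw [hψ1 Y hY]
          linarith [hmin Y hY]
        · rw [hψ0 Y hY]
      have hlt : (D.filter fun Y => ψ Y ≠ 0).card < n := by
        rw [← hn, ← hX]
        refine card_lt_card (Finset.ssubset_iff_subset_ne.2 ⟨?_, ?_⟩)
        · intro Y hY
          rw [mem_filter] at hY
          by_contra h'
          exact hY.2 (hψ0 Y h')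
        · intro heq
          have h1 := hY0
          rw [← heq, mem_filter, hψ1 Y0 hY0, htt] at h1
          exact h1.2 (sub_self _)
      have h1 := ih _ hlt ψ hψn (fun Y hY => hψ0 Y fun h' => hY (hXD h')) rfl
      have h2 := mul_le_mul_of_nonneg_left (h X hXD) ht.le
      have h3 : ∑ Y ∈ D, φ Y = ∑ Y ∈ D, ψ Y + t * (X.card : ℝ) := by
        have h4 : ∀ Y ∈ D, φ Y = ψ Y + if Y ∈ X then t else 0 := by
          intro Y _
          by_cases hY : Y ∈ X
          · rw [hψ1 Y hY, if_pos hY]; ring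
          · rw [hψ0 Y hY, hφ0 Y hY, if_neg hY]; ring
        rw [sum_congr rfl h4, sum_add_distrib, ← sum_filter, sum_const, nsmul_eq_mul]
        have h5 : D.filter (fun Y => Y ∈ X) = X := by
          ext Y
          rw [mem_filter]
          exact ⟨fun h => h.2, fun h => ⟨hXD h, h⟩⟩
        rw [h5]
        ring
      have h4 : ∑ Y ∈ D, ∑ j ∈ V \ Y, lam j * max (φ Y - φ (insert j Y)) 0 =
          (∑ Y ∈ D, ∑ j ∈ V \ Y, lam j * max (ψ Y - ψ (insert j Y)) 0) + t * bl V lam X := by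
        have h5 : t * bl V lam X =
            ∑ Y ∈ D, ∑ j ∈ V \ Y, if Y ∈ X ∧ insert j Y ∉ X then t * lam j else 0 := by
          rw [bl_eq, mul_sum]
          rw [← sum_subset hXD (f := fun Y => ∑ j ∈ V \ Y,
            if Y ∈ X ∧ insert j Y ∉ X then t * lam j else 0)]
          · refine sum_congr rfl fun Y hY => ?_
            rw [mul_sum]
            refine sum_congr rfl fun j _ => ?_
            by_cases h6 : insert j Y ∈ X <;> simp [h6, hY]
          · intro Y _ hY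
            refine sum_eq_zero fun j _ => ?_
            rw [if_neg fun h => hY h.1]
        rw [h5, ← sum_add_distrib]
        refine sum_congr rfl fun Y _ => ?_
        rw [← sum_add_distrib]
        refine sum_congr rfl fun j _ => ?_
        by_cases hY : Y ∈ X
        · by_cases hjY : insert j Y ∈ X
          · rw [hψ1 Y hY, hψ1 _ hjY, if_neg fun h => h.2 hjY]
            have h6 : φ Y - t - (φ (insert j Y) - t) = φ Y - φ (insert j Y) := by ring
            rw [h6, add_zero]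
          · rw [hψ1 Y hY, hψ0 _ hjY, hφ0 _ hjY, if_pos ⟨hY, hjY⟩, sub_zero, sub_zero,
              max_eq_left (hφ Y), max_eq_left (by linarith [hmin Y hY])]
            ring
        · rw [hψ0 Y hY, hφ0 Y hY, if_neg fun h => hY h.1, zero_sub, zero_sub,
            max_eq_right (by linarith [hφ (insert j Y)]),
            max_eq_right (by linarith [hψn (insert j Y)])]
          ring
      rw [h3, h4]
      linarith

/-- Summation by parts. -/
theorem by_parts {V : Finset α} {D : Finset (Finset α)} (hDV : D ⊆ V.powerset) (hD : Down D)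
    (φ : Finset α → ℝ) (f : Finset α → α → ℝ) :
    ∑ Y ∈ D, φ Y * ∑ j ∈ Y, f (Y.erase j) j =
      ∑ Z ∈ D, ∑ j ∈ V \ Z, if insert j Z ∈ D then φ (insert j Z) * f Z j else 0 := by
  have h1 : ∀ Y ∈ D, φ Y * ∑ j ∈ Y, f (Y.erase j) j = ∑ j ∈ Y, φ Y * f (Y.erase j) j :=
    fun Y _ => mul_sum _ _ _
  rw [sum_congr rfl h1, sum_sigma', sum_sigma']
  rw [← sum_filter_add_sum_filter_not (D.sigma fun Z => V \ Z) (fun q => insert q.2 q.1 ∈ D)]
  rw [sum_eq_zero (s := (D.sigma fun Z => V \ Z).filter fun q => ¬ insert q.2 q.1 ∈ D), add_zero]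
  · refine sum_bij' (fun q _ => ⟨q.1.erase q.2, q.2⟩) (fun q _ => ⟨insert q.2 q.1, q.2⟩)
      ?_ ?_ ?_ ?_ ?_
    · rintro ⟨Y, j⟩ hq
      rw [mem_sigma] at hq
      rw [mem_filter, mem_sigma]
      dsimp only at hq ⊢
      refine ⟨⟨hD _ hq.1 _ (erase_subset j Y), mem_sdiff.2 ⟨?_, notMem_erase j Y⟩⟩, ?_⟩
      · exact mem_powerset.1 (hDV hq.1) hq.2
      · rw [insert_erase hq.2]
        exact hq.1
    · rintro ⟨Z, j⟩ hq
      rw [mem_filter, mem_sigma] at hq
      rw [mem_sigma]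
      exact ⟨hq.2, mem_insert_self j Z⟩
    · rintro ⟨Y, j⟩ hq
      rw [mem_sigma] at hq
      dsimp only at hq ⊢
      rw [insert_erase hq.2]
    · rintro ⟨Z, j⟩ hq
      rw [mem_filter, mem_sigma, mem_sdiff] at hq
      dsimp only at hq ⊢
      rw [erase_insert hq.1.2.2]
    · rintro ⟨Y, j⟩ hq
      rw [mem_sigma] at hq
      dsimp only at hq ⊢
      rw [insert_erase hq.2, if_pos hq.1]
  · rintro ⟨Z, j⟩ hq
    rw [mem_filter] at hq
    exact if_neg hq.2

/-- A flow gives the boundary conditions. -/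
theorem bl_of_flow {V : Finset α} {lam : α → ℝ} {D : Finset (Finset α)}
    (hDV : D ⊆ V.powerset) {μ : ℝ} {f : Finset α → α → ℝ}
    (hf : ∀ Y ∈ D, ∀ j ∈ V \ Y, f Y j ≤ lam j)
    (h : ∀ Y ∈ D, μ + ∑ j ∈ Y, f (Y.erase j) j ≤ ∑ j ∈ V \ Y, f Y j)
    {E : Finset (Finset α)} (hE : E ⊆ D) (hd : Down E) : μ * (E.card : ℝ) ≤ bl V lam E := by
  have h1 : ∑ Y ∈ E, (μ + ∑ j ∈ Y, f (Y.erase j) j) ≤ ∑ Y ∈ E, ∑ j ∈ V \ Y, f Y j :=
    sum_le_sum fun Y hY => h Y (hE hY)
  have h2 := by_parts (hE.trans hDV) hd (fun _ => 1) f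
  simp only [one_mul] at h2
  rw [sum_add_distrib, sum_const, nsmul_eq_mul, h2] at h1
  have h3 : ∑ Y ∈ E, ∑ j ∈ V \ Y, f Y j - (∑ Z ∈ E, ∑ j ∈ V \ Z,
      if insert j Z ∈ E then f Z j else 0) ≤ bl V lam E := by
    rw [bl_eq, ← sum_sub_distrib]
    refine sum_le_sum fun Y hY => ?_
    rw [← sum_sub_distrib]
    refine sum_le_sum fun j hj => ?_
    by_cases h4 : insert j Y ∈ E
    · rw [if_pos h4, if_pos h4, sub_self]
    · rw [if_neg h4, if_neg h4, sub_zero]
      exact hf Y (hE hY) j hj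
  linarith

/-- The boundary conditions give a flow. -/
theorem flow_of_bl {V : Finset α} {lam : α → ℝ} (hlam : ∀ j ∈ V, 0 ≤ lam j)
    {D : Finset (Finset α)} (hDV : D ⊆ V.powerset) (hD : Down D) {μ : ℝ}
    (h : ∀ E ⊆ D, Down E → μ * (E.card : ℝ) ≤ bl V lam E) :
    ∃ f : Finset α → α → ℝ, (∀ Y ∈ D, ∀ j ∈ V \ Y, 0 ≤ f Y j ∧ f Y j ≤ lam j) ∧
      ∀ Y ∈ D, μ + ∑ j ∈ Y, f (Y.erase j) j ≤ ∑ j ∈ V \ Y, f Y j := by
  by_contra hcon
  -- the pairs
  obtain ⟨Q, hQ⟩ : ∃ Q : Finset (Σ _ : Finset α, α), Q = D.sigma fun Y => V \ Y := ⟨_, rfl⟩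
  have mQ : ∀ Y j, (⟨Y, j⟩ : Σ _ : Finset α, α) ∈ Q ↔ Y ∈ D ∧ j ∈ V \ Y := fun Y j => by
    rw [hQ, mem_sigma]
  let W := (Finset α → α → ℝ) × ℝ
  let ev : Finset α → α → (W →ₗ[ℝ] ℝ) := fun Y j =>
    { toFun := fun w => w.1 Y j
      map_add' := fun _ _ => rfl
      map_smul' := fun _ _ => rfl }
  obtain ⟨c, hc, hv⟩ := farkas (W := W) ((Q.disjSum Q).disjSum D)
    (fun k => match k with
      | Sum.inl (Sum.inl q) => ev q.1 q.2
      | Sum.inl (Sum.inr q) => lam q.2 • LinearMap.snd ℝ _ ℝ - ev q.1 q.2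
      | Sum.inr Y => (∑ j ∈ V \ Y, ev Y j) - (∑ j ∈ Y, ev (Y.erase j) j) -
          μ • LinearMap.snd ℝ _ ℝ)
    (-LinearMap.snd ℝ _ ℝ) (by
      rintro ⟨f, t⟩ hw
      by_contra ht
      have ht2 : ¬ (0 : ℝ) ≤ -t := ht
      have ht' : 0 < t := by linarith
      refine hcon ⟨fun Y j => f Y j / t, fun Y hY j hj => ⟨?_, ?_⟩, fun Y hY => ?_⟩
      · have h1 : 0 ≤ f Y j := hw (Sum.inl (Sum.inl ⟨Y, j⟩))
          (inl_mem_disjSum.2 (inl_mem_disjSum.2 ((mQ Y j).2 ⟨hY, hj⟩)))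
        exact div_nonneg h1 ht'.le
      · have h1 : 0 ≤ lam j * t - f Y j := hw (Sum.inl (Sum.inr ⟨Y, j⟩))
          (inl_mem_disjSum.2 (inr_mem_disjSum.2 ((mQ Y j).2 ⟨hY, hj⟩)))
        rw [div_le_iff₀ ht']
        linarith
      · have h1 := hw (Sum.inr Y) (inr_mem_disjSum.2 hY)
        simp only [LinearMap.sub_apply, LinearMap.coe_sum, Finset.sum_apply,
          LinearMap.smul_apply, smul_eq_mul] at h1
        have h2 : 0 ≤ ∑ j ∈ V \ Y, f Y j - ∑ j ∈ Y, f (Y.erase j) j - μ * t := h1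
        rw [← sum_div, ← sum_div]
        have h3 : μ + (∑ j ∈ Y, f (Y.erase j) j) / t = (μ * t + ∑ j ∈ Y, f (Y.erase j) j) / t := by
          field_simp
        rw [h3]
        exact div_le_div_of_nonneg_right (by linarith) ht'.le)
  -- the potential
  obtain ⟨φ, hφ⟩ : ∃ φ : Finset α → ℝ, φ = fun Y => if Y ∈ D then c (Sum.inr Y) else 0 :=
    ⟨_, rfl⟩
  have hφ1 : ∀ Y ∈ D, φ Y = c (Sum.inr Y) := fun Y hY => by rw [hφ]; exact if_pos hY
  have hφ0 : ∀ Y, Y ∉ D → φ Y = 0 := fun Y hY => by rw [hφ]; exact if_neg hY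
  have hφn : ∀ Y, 0 ≤ φ Y := by
    intro Y
    by_cases hY : Y ∈ D
    · rw [hφ1 Y hY]
      exact hc _ (inr_mem_disjSum.2 hY)
    · rw [hφ0 Y hY]
  have hco := coarea (fun X hX => min_down_w hlam hDV hD h hX) _ φ hφn hφ0 rfl
  obtain ⟨f, hf⟩ : ∃ f : Finset α → α → ℝ,
      f = fun Y j => if φ (insert j Y) < φ Y then lam j else 0 := ⟨_, rfl⟩
  have hmax : ∀ Y, ∀ j ∈ V, f Y j * (φ Y - φ (insert j Y)) =
      lam j * max (φ Y - φ (insert j Y)) 0 := by
    intro Y j _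
    rw [hf]
    dsimp only
    split_ifs with h1
    · rw [max_eq_left (by linarith)]
    · rw [max_eq_right (by linarith), zero_mul, mul_zero]
  have e1 := congrArg (fun g : W →ₗ[ℝ] ℝ => g (f, 1)) hv
  simp only [sum_disjSum, LinearMap.add_apply, LinearMap.coe_sum, Finset.sum_apply,
    LinearMap.smul_apply, smul_eq_mul, LinearMap.neg_apply, LinearMap.sub_apply] at e1
  have hs1 : (LinearMap.snd ℝ (Finset α → α → ℝ) ℝ) (f, 1) = 1 := rfl
  simp only [hs1, mul_one] at e1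
  have a1 : 0 ≤ ∑ q ∈ Q, c (Sum.inl (Sum.inl q)) * ev q.1 q.2 (f, 1) := by
    refine sum_nonneg fun q hq => mul_nonneg (hc _ (inl_mem_disjSum.2 (inl_mem_disjSum.2 hq))) ?_
    show 0 ≤ f q.1 q.2
    rw [hf]
    dsimp only
    obtain ⟨Y, j⟩ := q
    split_ifs
    · exact hlam _ (mem_sdiff.1 ((mQ Y j).1 hq).2).1
    · exact le_rfl
  have a2 : 0 ≤ ∑ q ∈ Q, c (Sum.inl (Sum.inr q)) * (lam q.2 - ev q.1 q.2 (f, 1)) := by
    refine sum_nonneg fun q hq => mul_nonneg (hc _ (inl_mem_disjSum.2 (inr_mem_disjSum.2 hq))) ?_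
    show 0 ≤ lam q.2 - f q.1 q.2
    rw [hf]
    dsimp only
    obtain ⟨Y, j⟩ := q
    split_ifs
    · exact (sub_self _).ge
    · rw [sub_zero]
      exact hlam _ (mem_sdiff.1 ((mQ Y j).1 hq).2).1
  have a3 : ∑ Y ∈ D, c (Sum.inr Y) * (∑ j ∈ V \ Y, ev Y j (f, 1) -
      ∑ j ∈ Y, ev (Y.erase j) j (f, 1) - μ) =
      (∑ Y ∈ D, ∑ j ∈ V \ Y, lam j * max (φ Y - φ (insert j Y)) 0) - μ * ∑ Y ∈ D, φ Y := by
    have b1 : ∀ Y ∈ D, c (Sum.inr Y) * (∑ j ∈ V \ Y, ev Y j (f, 1) -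
        ∑ j ∈ Y, ev (Y.erase j) j (f, 1) - μ) =
        φ Y * ∑ j ∈ V \ Y, f Y j - φ Y * ∑ j ∈ Y, f (Y.erase j) j - μ * φ Y := by
      intro Y hY
      rw [hφ1 Y hY]
      show c (Sum.inr Y) * (∑ j ∈ V \ Y, f Y j - ∑ j ∈ Y, f (Y.erase j) j - μ) = _
      ring
    rw [sum_congr rfl b1, sum_sub_distrib, sum_sub_distrib, by_parts hDV hD φ f, ← mul_sum,
      ← sum_sub_distrib]
    congr 1
    refine sum_congr rfl fun Y _ => ?_
    rw [mul_sum, ← sum_sub_distrib]
    refine sum_congr rfl fun j hj => ?_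
    rw [← hmax Y j (mem_sdiff.1 hj).1]
    by_cases h1 : insert j Y ∈ D
    · rw [if_pos h1]; ring
    · rw [if_neg h1, hφ0 _ h1]; ring
  rw [a3] at e1
  linarith

end Pool.Agent.H66.FC
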